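import Pool.Agent.KMQ.Bridge
import Pool.Agent.NegLim.NPLang

/-! The language of the solvable systems is in NP. -/

namespace Pool.Agent.KMQ

open Finset Pool.Agent.PolyTime Pool.Agent.KE Pool.Agent.NegLim Pool.Agent.NegLim.NPL

theorem lt_dim {N q : ℕ} : q < dim N ↔ (q + 1) ^ 3 + (q + 1) ≤ N := by
  constructor
  · intro h
    have h1 := dim_spec N
    have h2 : (q + 1) ^ 3 ≤ dim N ^ 3 := Nat.pow_le_pow_left h 3
    omega
  · intro h
    unfold dim
    have h2 : q + 1 ≤ N := by omega
    exact Nat.le_findGreatest (P := fun n => n ^ 3 + n ≤ N) h2 h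

theorem dim_eq_card (N : ℕ) :
    dim N = ((range (N + 1)).filter fun q => (q + 1) ^ 3 + (q + 1) ≤ N).card := by
  have : (range (N + 1)).filter (fun q => (q + 1) ^ 3 + (q + 1) ≤ N) = range (dim N) := by
    ext q
    rw [mem_filter, mem_range, mem_range, lt_dim]
    exact ⟨fun h => h.2, fun h => ⟨by omega, h⟩⟩
  rw [this, card_range]

theorem pf_dim {α : Type} [Ctx α] {K : List Bool → α → ℕ} (hK : PF K) :
    PF (fun y a => dim (K y a)) := by
  have h1 : PD (fun (x : List Bool) (t : α × ℕ) => (t.2 + 1) ^ 3 + (t.2 + 1) ≤ K x t.1) :=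
    PD.le (((PF.snd.add (PF.const 1)).pow 3).add (PF.snd.add (PF.const 1))) hK.fst
  refine (PF.count (hK.add (PF.const 1)) h1).congr fun x a => ?_
  rw [dim_eq_card]

/-- the value of the quadratic form number `e`, as a number -/
def qN (n : ℕ) (a w : ℕ → Bool) (e : ℕ) : ℕ :=
  ∑ i ∈ range n, ∑ j ∈ range n, (a ((e * n + i) * n + j)).toNat * (w i).toNat * (w j).toNat

/-- the verifier -/
def Ver (y : List Bool) : Prop :=
  ∀ e < dim (plen y), (qN (dim (plen y)) (xbit y) (sbit y) e +
    (xbit y (dim (plen y) ^ 3 + e)).toNat) % 2 = 0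

theorem pd_Ver : PD (fun (y : List Bool) (_ : Unit) => Ver y) := by
  have hn : ∀ (α : Type) [Ctx α], PF (fun (y : List Bool) (_ : α) => dim (plen y)) :=
    fun α _ => pf_dim pf_plen
  have hx : ∀ (α : Type) [Ctx α] (A : List Bool → α → ℕ), PF A →
      PF (fun (y : List Bool) (a : α) => (xbit y (A y a)).toNat) :=
    fun α _ A hA => PF.inp (((PF.const 2).mul hA).add (PF.const 1))
  have hs : ∀ (α : Type) [Ctx α] (A : List Bool → α → ℕ), PF A →
      PF (fun (y : List Bool) (a : α) => (sbit y (A y a)).toNat) :=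
    fun α _ A hA => PF.inp ((((PF.const 2).mul pf_plen).add (PF.const 1)).add hA)
  have h2 : PF (fun (y : List Bool) (t : ((Unit × ℕ) × ℕ) × ℕ) =>
      (xbit y ((t.1.1.2 * dim (plen y) + t.1.2) * dim (plen y) + t.2)).toNat *
        (sbit y t.1.2).toNat * (sbit y t.2).toNat) := by
    have he : PF (fun (_ : List Bool) (t : ((Unit × ℕ) × ℕ) × ℕ) => t.1.1.2) := PF.snd.fst.fst
    have hi : PF (fun (_ : List Bool) (t : ((Unit × ℕ) × ℕ) × ℕ) => t.1.2) := PF.snd.fst
    have hj : PF (fun (_ : List Bool) (t : ((Unit × ℕ) × ℕ) × ℕ) => t.2) := PF.snd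
    have h := hn (((Unit × ℕ) × ℕ) × ℕ)
    exact ((hx _ _ ((((he.mul h).add hi).mul h).add hj)).mul (hs _ _ hi)).mul (hs _ _ hj)
  have h1 : PF (fun (y : List Bool) (t : (Unit × ℕ) × ℕ) => ∑ j ∈ range (dim (plen y)),
      (xbit y ((t.1.2 * dim (plen y) + t.2) * dim (plen y) + j)).toNat *
        (sbit y t.2).toNat * (sbit y j).toNat) := PF.sum (hn _) h2
  have h0 : PF (fun (y : List Bool) (t : Unit × ℕ) =>
      qN (dim (plen y)) (xbit y) (sbit y) t.2) := PF.sum (hn _) h1
  exact PD.forall_lt (hn Unit)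
    (P := fun (y : List Bool) (t : Unit × ℕ) => (qN (dim (plen y)) (xbit y) (sbit y) t.2 +
      (xbit y (dim (plen y) ^ 3 + t.2)).toNat) % 2 = 0)
    (PD.eq ((h0.add (hx _ _ (((hn _).pow 3).add PF.snd))).mod (PF.const 2)) (PF.const 0))

open Classical in
theorem ver_polyTime : Nonempty (Turing.TM2ComputableInPolyTime
    (id : List Bool → List Bool) (id : List Bool → List Bool)
    (fun y => [decide (Ver y)])) := by
  apply PFBits.polyTime
  refine ⟨fun _ => 1, fun w _ => if Ver w then 1 else 0, PF.const 1, ?_, ?_⟩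
  · exact PF.ite (P := fun w (_ : Unit × ℕ) => Ver w) pd_Ver.fst (PF.const 1) (PF.const 0)
  · intro w
    by_cases h : Ver w <;> simp [h]

theorem toNat_zb (b : Bool) : ((b.toNat : ℕ) : ZMod 2) = zb b := by cases b <;> rfl

theorem qN_cast (n : ℕ) (a w : ℕ → Bool) (e : ℕ) : ((qN n a w e : ℕ) : ZMod 2) =
    ∑ i ∈ range n, ∑ j ∈ range n, zb (a ((e * n + i) * n + j)) * zb (w i) * zb (w j) := by
  unfold qN
  push_cast
  simp only [toNat_zb]

theorem even_iff (a b : ℕ) : (a + b) % 2 = 0 ↔ (a : ZMod 2) = (b : ZMod 2) := by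
  rw [← Nat.even_iff, ← ZMod.natCast_eq_zero_iff_even]
  push_cast
  exact add_eq_zero

theorem ver_pair (x w : List Bool) : Ver (pairWord x w) ↔
    ∀ e < dim x.length,
      ∑ i ∈ range (dim x.length), ∑ j ∈ range (dim x.length),
        zb (x.getD ((e * dim x.length + i) * dim x.length + j) false) * zb (w.getD i false) *
          zb (w.getD j false) = zb (x.getD (dim x.length ^ 3 + e) false) := by
  unfold Ver
  rw [plen_pair]
  refine forall_congr' fun e => forall_congr' fun he => ?_
  have h2 := dim_spec x.length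
  rw [even_iff, qN_cast, toNat_zb, xbit_pair _ _ _ (by omega)]
  rw [Finset.sum_congr rfl fun i hi => Finset.sum_congr rfl fun j hj => by
    have := pos_lt3 he (mem_range.1 hi) (mem_range.1 hj)
    rw [xbit_pair _ _ _ (by omega), sbit_pair, sbit_pair]]

open Classical in
/-- **The problem is in NP.** -/
theorem inNP_MQ : InNP (fun y => decide (MQ y)) := by
  refine ⟨fun y => decide (Ver y), 1, ver_polyTime, fun x => ?_⟩
  rw [decide_eq_true_iff]
  unfold MQ
  constructor
  · rintro ⟨v, hv⟩
    refine ⟨(List.range (dim x.length)).map v, ?_, ?_⟩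
    · rw [List.length_map, List.length_range, pow_one]
      have := dim_spec x.length
      omega
    · rw [decide_eq_true_iff, ver_pair]
      intro e he
      rw [← hv e he]
      refine Finset.sum_congr rfl fun i hi => Finset.sum_congr rfl fun j hj => ?_
      have hi' := mem_range.1 hi
      have hj' := mem_range.1 hj
      have hg : ∀ k < dim x.length, ((List.range (dim x.length)).map v).getD k false = v k := by
        intro k hk
        rw [List.getD_eq_getElem _ _ (by simpa using hk), List.getElem_map, List.getElem_range]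
      rw [hg i hi', hg j hj']
  · rintro ⟨w, _, hw⟩
    rw [decide_eq_true_iff, ver_pair] at hw
    exact ⟨fun i => w.getD i false, hw⟩

end Pool.Agent.KMQ
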