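import Pool.Agent.KMQ.It
import Pool.Agent.KMQ.NP
import Pool.Agent.KNL.Model
import Pool.Agent.Lib.PolyTime.Iter

/-! The language of the quadratic maps iterated as often as their dimension is in P. -/

namespace Pool.Agent.KMQ

open Finset Pool.Agent.PolyTime Pool.Agent.KE

/-- the number that is the new letter `p` -/
def stepN (y : List Bool) (p : ℕ) : ℕ :=
  if dim y.length ^ 3 ≤ p ∧ p < dim y.length ^ 3 + dim y.length then
    (∑ i ∈ range (dim y.length), ∑ j ∈ range (dim y.length),
      (y.getD (((p - dim y.length ^ 3) * dim y.length + i) * dim y.length + j) false).toNat *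
        (y.getD (dim y.length ^ 3 + i) false).toNat * (y.getD (dim y.length ^ 3 + j) false).toNat) % 2
  else (y.getD p false).toNat

/-- one step; the state is stored after the coefficients -/
def stepW (y : List Bool) : List Bool := (List.range y.length).map fun p => decide (stepN y p ≠ 0)

/-- the letters of the first word -/
def initN (y : List Bool) (p : ℕ) : ℕ :=
  if p < dim y.length ^ 3 then (y.getD p false).toNat else if p = dim y.length ^ 3 then 1 else 0

/-- the first word -/
def initW (y : List Bool) : List Bool := (List.range y.length).map fun p => decide (initN y p ≠ 0)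

/-- the output -/
def outN (y : List Bool) : ℕ :=
  if dim y.length = 0 then 1 else (y.getD (dim y.length ^ 3 + (dim y.length - 1)) false).toNat

/-- the output word -/
def outW (y : List Bool) : List Bool := (List.range 1).map fun _ => decide (outN y ≠ 0)

theorem pf_dim' {α : Type} [Ctx α] : PF (fun (y : List Bool) (_ : α) => dim y.length) := pf_dim PF.len

theorem pb_step : PFBits stepW := by
  refine ⟨fun y => y.length, stepN, PF.len, ?_, fun x => rfl⟩
  have hn : ∀ (α : Type) [Ctx α], PF (fun (y : List Bool) (_ : α) => dim y.length) :=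
    fun α _ => pf_dim'
  unfold stepN
  refine PF.ite (P := fun (y : List Bool) (t : Unit × ℕ) =>
    dim y.length ^ 3 ≤ t.2 ∧ t.2 < dim y.length ^ 3 + dim y.length)
    ((PD.le ((hn _).pow 3) PF.snd).and (PD.lt PF.snd (((hn _).pow 3).add (hn _)))) ?_ PF.snd.inp
  refine PF.mod ?_ (PF.const 2)
  refine PF.sum (F := fun (y : List Bool) (t : (Unit × ℕ) × ℕ) => ∑ j ∈ range (dim y.length),
      (y.getD (((t.1.2 - dim y.length ^ 3) * dim y.length + t.2) * dim y.length + j) false).toNat *
        (y.getD (dim y.length ^ 3 + t.2) false).toNat * (y.getD (dim y.length ^ 3 + j) false).toNat)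
    (hn _) ?_
  refine PF.sum (F := fun (y : List Bool) (t : ((Unit × ℕ) × ℕ) × ℕ) =>
      (y.getD (((t.1.1.2 - dim y.length ^ 3) * dim y.length + t.1.2) * dim y.length + t.2) false).toNat *
        (y.getD (dim y.length ^ 3 + t.1.2) false).toNat * (y.getD (dim y.length ^ 3 + t.2) false).toNat)
    (hn _) ?_
  have hp : PF (fun (_ : List Bool) (t : ((Unit × ℕ) × ℕ) × ℕ) => t.1.1.2) := PF.snd.fst.fst
  have hi : PF (fun (_ : List Bool) (t : ((Unit × ℕ) × ℕ) × ℕ) => t.1.2) := PF.snd.fst
  have hj : PF (fun (_ : List Bool) (t : ((Unit × ℕ) × ℕ) × ℕ) => t.2) := PF.snd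
  have h := hn (((Unit × ℕ) × ℕ) × ℕ)
  exact (((((((hp.sub (h.pow 3)).mul h).add hi).mul h).add hj).inp).mul (((h.pow 3).add hi).inp)).mul
    (((h.pow 3).add hj).inp)

theorem pb_init : PFBits initW := by
  refine ⟨fun y => y.length, initN, PF.len, ?_, fun x => rfl⟩
  unfold initN
  refine PF.ite (P := fun (y : List Bool) (t : Unit × ℕ) => t.2 < dim y.length ^ 3)
    (PD.lt PF.snd (pf_dim'.pow 3)) PF.snd.inp ?_
  exact PF.ite (P := fun (y : List Bool) (t : Unit × ℕ) => t.2 = dim y.length ^ 3)
    (PD.eq PF.snd (pf_dim'.pow 3)) (PF.const 1) (PF.const 0)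

theorem pb_out : PFBits outW := by
  refine ⟨fun _ => 1, fun y _ => outN y, PF.const 1, ?_, fun x => rfl⟩
  unfold outN
  exact PF.ite (P := fun (y : List Bool) (_ : Unit × ℕ) => dim y.length = 0)
    (PD.eq pf_dim' (PF.const 0)) (PF.const 1) (((pf_dim'.pow 3).add (pf_dim'.sub (PF.const 1))).inp)

theorem getD_mapRange (n : ℕ) (f : ℕ → Bool) {p : ℕ} (h : p < n) :
    ((List.range n).map f).getD p false = f p := by
  rw [List.getD_eq_getElem _ _ (by simpa using h), List.getElem_map, List.getElem_range]

theorem length_stepW (y : List Bool) : (stepW y).length = y.length := by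
  unfold stepW
  simp

/-- the word contains the coefficients of `y` and the state `x` -/
def Inv (y : List Bool) (x : ℕ → Bool) (w : List Bool) : Prop :=
  w.length = y.length ∧ (∀ p < dim y.length ^ 3, w.getD p false = y.getD p false) ∧
    ∀ e < dim y.length, w.getD (dim y.length ^ 3 + e) false = x e

theorem toNat_ne (b : Bool) : decide (b.toNat ≠ 0) = b := by cases b <;> rfl

theorem inv_init (y : List Bool) : Inv y (fun i => decide (i = 0)) (initW y) := by
  have h := dim_spec y.length
  refine ⟨by unfold initW; simp, fun p hp => ?_, fun e he => ?_⟩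
  · unfold initW
    rw [getD_mapRange _ _ (by omega)]
    unfold initN
    rw [if_pos hp, toNat_ne]
  · unfold initW
    rw [getD_mapRange _ _ (by omega)]
    unfold initN
    rw [if_neg (by omega)]
    by_cases h0 : e = 0
    · subst h0
      rw [if_pos (by omega)]
      rfl
    · rw [if_neg (by omega)]
      show decide (0 ≠ 0) = decide (e = 0)
      rw [decide_eq_false h0]
      rfl

theorem mod_two_ne (m : ℕ) : decide (m % 2 ≠ 0) = decide ((m : ZMod 2) = 1) := by
  rw [decide_eq_decide, ZMod.natCast_eq_one_iff_odd, Nat.odd_iff]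
  omega

theorem inv_step {y : List Bool} {x : ℕ → Bool} {w : List Bool} (h : Inv y x w) :
    Inv y (qmap (dim y.length) (fun p => y.getD p false) x) (stepW w) := by
  obtain ⟨h1, h2, h3⟩ := h
  have h0 := dim_spec y.length
  refine ⟨by rw [length_stepW, h1], fun p hp => ?_, fun e he => ?_⟩
  · unfold stepW
    rw [getD_mapRange _ _ (by rw [h1]; omega)]
    unfold stepN
    rw [h1, if_neg (by omega), toNat_ne]
    exact h2 p hp
  · unfold stepW
    rw [getD_mapRange _ _ (by rw [h1]; omega)]
    unfold stepN
    rw [h1, if_pos (by omega), mod_two_ne]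
    unfold qmap
    congr 2
    push_cast
    refine Finset.sum_congr rfl fun i hi => Finset.sum_congr rfl fun j hj => ?_
    have hi' := mem_range.1 hi
    have hj' := mem_range.1 hj
    rw [toNat_zb, toNat_zb, toNat_zb, h3 i hi', h3 j hj', Nat.add_sub_cancel_left,
      h2 _ (pos_lt3 he hi' hj')]

theorem inv_iter (y : List Bool) (t : ℕ) :
    Inv y ((qmap (dim y.length) fun p => y.getD p false)^[t] fun i => decide (i = 0))
      (stepW^[t] (initW y)) := by
  induction t with
  | zero => exact inv_init y
  | succ t ih =>
    rw [Function.iterate_succ_apply', Function.iterate_succ_apply']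
    exact inv_step ih

open Classical in
/-- **Iterating a quadratic map as often as its dimension is in P.** -/
theorem inP_It : Pool.Agent.KNL.InP (It fun n => n) := by
  have h1 : PC (fun w => stepW^[dim w.length] w) :=
    PFBits.iterate pb_step (fun x => (length_stepW x).le) pf_dim'
  have h2 : PC (fun y => outW (stepW^[dim (initW y).length] (initW y))) :=
    pb_out.pc.comp (h1.comp pb_init.pc)
  refine ⟨fun y => decide (It (fun n => n) y), fun w => by simp, (h2.congr fun y => ?_).polyTime⟩
  have hl : (initW y).length = y.length := (inv_init y).1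
  rw [hl]
  obtain ⟨w1, _, w3⟩ := inv_iter y (dim y.length)
  have h3 : outW (stepW^[dim y.length] (initW y)) =
      [decide (outN (stepW^[dim y.length] (initW y)) ≠ 0)] := rfl
  rw [h3]
  congr 1
  have h4 : outN (stepW^[dim y.length] (initW y)) ≠ 0 ↔ It (fun n => n) y := by
    unfold outN It
    rw [w1]
    by_cases h0 : dim y.length = 0
    · rw [if_pos h0, h0]
      exact ⟨fun _ => rfl, fun _ => one_ne_zero⟩
    · rw [if_neg h0, w3 _ (by omega)]
      show _ ↔ ((qmap (dim y.length) fun p => y.getD p false)^[dim y.length] fun i => decide (i = 0))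
        (dim y.length - 1) = true
      generalize ((qmap (dim y.length) fun p => y.getD p false)^[dim y.length] fun i => decide (i = 0))
        (dim y.length - 1) = b
      cases b <;> decide
  exact decide_eq_decide.2 h4

end Pool.Agent.KMQ
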