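import Pool.Agent.KMQ.Sys
import Pool.Agent.KH.Cub
import Pool.Agent.KH.Avg

/-! The words of the systems of quadratic equations. -/

namespace Pool.Agent.KMQ

open Finset Pool.Agent.KE Pool.Agent.KH

theorem dim_spec (N : ℕ) : dim N ^ 3 + dim N ≤ N := by
  unfold dim
  exact Nat.findGreatest_spec (P := fun n => n ^ 3 + n ≤ N) (Nat.zero_le N) (by simp)

theorem dim_max (N : ℕ) : N < (dim N + 1) ^ 3 + (dim N + 1) := by
  by_contra h
  have h1 : (dim N + 1) ^ 3 + (dim N + 1) ≤ N := not_lt.1 h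
  have h2 : dim N + 1 ≤ N := by omega
  have := Nat.le_findGreatest (P := fun n => n ^ 3 + n ≤ N) h2 h1
  unfold dim at this h1
  omega

/-- the size of the blocks -/
def bs (N : ℕ) : ℕ := (dim N - 1) / 6

theorem bs_spec {N : ℕ} (h : 1 ≤ bs N) : 6 * bs N + 1 ≤ dim N := by
  unfold bs at *
  omega

theorem pos_lt3 {n e i j : ℕ} (he : e < n) (hi : i < n) (hj : j < n) : (e * n + i) * n + j < n ^ 3 := by
  have s : ∀ a b c : ℕ, a < c → b < n → a * n + b < c * n := by
    intro a b c h1 h2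
    calc a * n + b < a * n + n := by omega
      _ = (a + 1) * n := by ring
      _ ≤ c * n := Nat.mul_le_mul_right _ h1
  have h1 := s e i n he hi
  have h2 := s _ j _ h1 hj
  calc _ < n * n * n := h2
    _ = n ^ 3 := by ring

theorem block_lt {N : ℕ} {b l : ℕ} (hb : b < bs N * bs N) (hl : l < bs N) :
    ((4 * bs N + l) * dim N + b / bs N) * dim N + (bs N + b % bs N) < dim N ^ 3 := by
  have hm : 1 ≤ bs N := by omega
  have h1 := bs_spec hm
  have h2 : b / bs N < bs N := Nat.div_lt_of_lt_mul hb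
  have h3 : b % bs N < bs N := Nat.mod_lt _ hm
  exact pos_lt3 (by omega) (by omega) (by omega)

/-- the position of letter `l` of the block `b` -/
def bpos (N : ℕ) (b : Fin (bs N * bs N)) (l : Fin (bs N)) : Fin N :=
  ⟨((4 * bs N + l) * dim N + (b : ℕ) / bs N) * dim N + (bs N + (b : ℕ) % bs N), by
    have := block_lt (N := N) b.2 l.2
    have := dim_spec N
    omega⟩

theorem split3 {n e i j : ℕ} (hi : i < n) (hj : j < n) :
    ((e * n + i) * n + j) / n / n = e ∧ ((e * n + i) * n + j) / n % n = i ∧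
      ((e * n + i) * n + j) % n = j := by
  have hn : 0 < n := by omega
  have d : ∀ a r, r < n → (a * n + r) / n = a := fun a r hr => by
    rw [mul_comm, Nat.mul_add_div hn, Nat.div_eq_of_lt hr, add_zero]
  have e : ∀ a r, r < n → (a * n + r) % n = r := fun a r hr => by
    rw [mul_comm, Nat.mul_add_mod, Nat.mod_eq_of_lt hr]
  rw [d _ _ hj, d _ _ hi, e _ _ hj, e _ _ hi]
  exact ⟨rfl, rfl, rfl⟩

theorem bpos_inj (N : ℕ) {b b' : Fin (bs N * bs N)} {l l' : Fin (bs N)}
    (h : bpos N b l = bpos N b' l') : b = b' ∧ l = l' := by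
  have h1 := congrArg Fin.val h
  simp only [bpos] at h1
  have hl := l.2
  have hm : 1 ≤ bs N := by omega
  have h0 := bs_spec hm
  have h2 : (b : ℕ) / bs N < bs N := Nat.div_lt_of_lt_mul b.2
  have h3 : (b : ℕ) % bs N < bs N := Nat.mod_lt _ hm
  have h2' : (b' : ℕ) / bs N < bs N := Nat.div_lt_of_lt_mul b'.2
  have h3' : (b' : ℕ) % bs N < bs N := Nat.mod_lt _ hm
  obtain ⟨e1, e2, e3⟩ := split3 (n := dim N) (e := 4 * bs N + l) (i := (b : ℕ) / bs N)
    (j := bs N + (b : ℕ) % bs N) (by omega) (by omega)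
  obtain ⟨f1, f2, f3⟩ := split3 (n := dim N) (e := 4 * bs N + l') (i := (b' : ℕ) / bs N)
    (j := bs N + (b' : ℕ) % bs N) (by omega) (by omega)
  rw [h1] at e1 e2 e3
  have g1 : (l : ℕ) = l' := by omega
  have g2 : (b : ℕ) / bs N = b' / bs N := by omega
  have g3 : (b : ℕ) % bs N = b' % bs N := by omega
  refine ⟨Fin.ext ?_, Fin.ext g1⟩
  rw [← Nat.div_add_mod (b : ℕ) (bs N), ← Nat.div_add_mod (b' : ℕ) (bs N), g2, g3]

/-- a function on triples of numbers -/
def ext3 {m : ℕ} (C : Tri m → Bool) (i j l : ℕ) : Bool :=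
  if h : i < m ∧ j < m ∧ l < m then C (⟨i, h.1⟩, ⟨j, h.2.1⟩, ⟨l, h.2.2⟩) else false

/-- the word of the system without blocks -/
def base (N : ℕ) (C : Tri (bs N) → Bool) (p : Fin N) : Bool :=
  if (p : ℕ) < dim N ^ 3 then
    A0 (bs N) (fun _ _ _ => false) (ext3 C) ((p : ℕ) / dim N / dim N) ((p : ℕ) / dim N % dim N)
      ((p : ℕ) % dim N)
  else b0 (bs N) ((p : ℕ) - dim N ^ 3)

/-- the blocks as a function on numbers -/
def zX {m : ℕ} (X : Fin (m * m) → Fin m → Bool) (i j l : ℕ) : Bool :=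
  if h : i * m + j < m * m ∧ l < m then X ⟨i * m + j, h.1⟩ ⟨l, h.2⟩ else false

theorem A0_off {m : ℕ} {z z' C : ℕ → ℕ → ℕ → Bool} {e i j : ℕ}
    (h : ¬ (4 * m ≤ e ∧ e < 5 * m ∧ i < m ∧ m ≤ j ∧ j < 2 * m)) : A0 m z C e i j = A0 m z' C e i j := by
  unfold A0
  by_cases h1 : e < m
  · rw [if_pos h1, if_pos h1]
  rw [if_neg h1, if_neg h1]
  by_cases h2 : e < 2 * m
  · rw [if_pos h2, if_pos h2]
  rw [if_neg h2, if_neg h2]
  by_cases h3 : e = 2 * m
  · rw [if_pos h3, if_pos h3]
  rw [if_neg h3, if_neg h3]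
  by_cases h4 : e < 3 * m
  · rw [if_pos h4, if_pos h4]
  rw [if_neg h4, if_neg h4]
  by_cases h5 : e = 3 * m
  · rw [if_pos h5, if_pos h5]
  rw [if_neg h5, if_neg h5]
  by_cases h6 : e < 4 * m
  · rw [if_pos h6, if_pos h6]
  rw [if_neg h6, if_neg h6]
  by_cases h7 : e < 5 * m
  · rw [if_pos h7, if_pos h7]
    have : (decide (0 ≤ i ∧ i < 0 + m) && decide (m ≤ j ∧ j < m + m)) = false := by
      rw [Bool.and_eq_false_iff, decide_eq_false_iff_not, decide_eq_false_iff_not]
      by_contra hc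
      push Not at hc
      apply h
      omega
    rw [this, Bool.false_and, Bool.false_and]
  rw [if_neg h7, if_neg h7]

theorem A0_on {m : ℕ} {z C : ℕ → ℕ → ℕ → Bool} {l i j : ℕ} (hl : l < m) (hi : i < m) (hj : j < m) :
    A0 m z C (4 * m + l) i (m + j) = z i j l := by
  unfold A0
  rw [if_neg (by omega), if_neg (by omega), if_neg (by omega), if_neg (by omega), if_neg (by omega),
    if_neg (by omega), if_pos (by omega)]
  have h1 : decide (i = m + j) = false := decide_eq_false (by omega)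
  have h2 : decide (0 ≤ i ∧ i < 0 + m) = true := decide_eq_true (by omega)
  have h3 : decide (m ≤ m + j ∧ m + j < m + m) = true := decide_eq_true (by omega)
  rw [h1, h2, h3, Bool.false_and, Bool.false_or, Bool.true_and, Bool.true_and]
  congr 1
  · omega
  · omega

theorem getD_wd (N : ℕ) (C : Tri (bs N) → Bool) (X : Fin (bs N * bs N) → Fin (bs N) → Bool)
    (hm : 1 ≤ bs N) {e i j : ℕ} (he : e < dim N) (hi : i < dim N) (hj : j < dim N) :
    (List.ofFn (wd (bpos N) (base N C) X)).getD ((e * dim N + i) * dim N + j) false =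
      A0 (bs N) (zX X) (ext3 C) e i j := by
  have h1 := pos_lt3 he hi hj
  have h2 := dim_spec N
  have h3 : (e * dim N + i) * dim N + j < N := by omega
  rw [List.getD_eq_getElem _ _ (by simpa using h3), List.getElem_ofFn]
  by_cases hb : 4 * bs N ≤ e ∧ e < 5 * bs N ∧ i < bs N ∧ bs N ≤ j ∧ j < 2 * bs N
  · obtain ⟨l, rfl⟩ : ∃ l, e = 4 * bs N + l := ⟨e - 4 * bs N, by omega⟩
    obtain ⟨j', rfl⟩ : ∃ j', j = bs N + j' := ⟨j - bs N, by omega⟩
    have hl : l < bs N := by omega
    have hj' : j' < bs N := by omega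
    have hij : i * bs N + j' < bs N * bs N := by
      calc i * bs N + j' < i * bs N + bs N := by omega
        _ = (i + 1) * bs N := by ring
        _ ≤ _ := Nat.mul_le_mul_right _ hb.2.2.1
    have e1 : (i * bs N + j') / bs N = i := by
      rw [mul_comm, Nat.mul_add_div (by omega), Nat.div_eq_of_lt hj', add_zero]
    have e2 : (i * bs N + j') % bs N = j' := by
      rw [mul_comm, Nat.mul_add_mod, Nat.mod_eq_of_lt hj']
    rw [A0_on hl hb.2.2.1 hj']
    have h4 : (⟨((4 * bs N + l) * dim N + i) * dim N + (bs N + j'), h3⟩ : Fin N) =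
        bpos N ⟨i * bs N + j', hij⟩ ⟨l, hl⟩ := by
      refine Fin.ext ?_
      simp only [bpos]
      rw [e1, e2]
    rw [h4, wd_pos (fun b b' l l' h => bpos_inj N h)]
    unfold zX
    rw [dif_pos ⟨hij, hl⟩]
  · rw [wd_off]
    · unfold base
      rw [if_pos h1]
      obtain ⟨f1, f2, f3⟩ := split3 (n := dim N) (e := e) hi hj
      simp only [f1, f2, f3]
      exact A0_off hb
    · intro b l h
      have h4 := congrArg Fin.val h
      simp only [bpos] at h4
      have hb2 : (b : ℕ) / bs N < bs N := Nat.div_lt_of_lt_mul b.2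
      have hb3 : (b : ℕ) % bs N < bs N := Nat.mod_lt _ hm
      have h0 := bs_spec hm
      have hl := l.2
      obtain ⟨e1, e2, e3⟩ := split3 (n := dim N) (e := 4 * bs N + l) (i := (b : ℕ) / bs N)
        (j := bs N + (b : ℕ) % bs N) (by omega) (by omega)
      obtain ⟨f1, f2, f3⟩ := split3 (n := dim N) (e := e) hi hj
      rw [h4] at e1 e2 e3
      exact hb (by omega)

theorem getD_wd_rhs (N : ℕ) (C : Tri (bs N) → Bool) (X : Fin (bs N * bs N) → Fin (bs N) → Bool)
    {e : ℕ} (he : e < dim N) :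
    (List.ofFn (wd (bpos N) (base N C) X)).getD (dim N ^ 3 + e) false = b0 (bs N) e := by
  have h2 := dim_spec N
  have h3 : dim N ^ 3 + e < N := by omega
  rw [List.getD_eq_getElem _ _ (by simpa using h3), List.getElem_ofFn, wd_off]
  · unfold base
    rw [if_neg (by simp)]
    simp
  · intro b l h
    have h4 := congrArg Fin.val h
    have h5 := block_lt (N := N) b.2 l.2
    simp only [bpos] at h4
    omega

theorem cubS_cub {m : ℕ} (C : Tri m → Bool) (x : Fin m → Bool) (w : ℕ → Bool)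
    (hw : ∀ i : Fin m, w i = x i) : cubS m (ext3 C) w = 1 ↔ cub C x = true := by
  have h1 : cubS m (ext3 C) w = ∑ t : Tri m, zb (C t && mon x t) := by
    unfold cubS
    rw [Fintype.sum_prod_type, Finset.sum_range]
    refine Finset.sum_congr rfl fun i _ => ?_
    rw [Fintype.sum_prod_type, Finset.mul_sum, Finset.sum_range]
    refine Finset.sum_congr rfl fun j _ => ?_
    rw [Finset.mul_sum, Finset.sum_range]
    refine Finset.sum_congr rfl fun l _ => ?_
    have : ext3 C i j l = C (i, j, l) := by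
      unfold ext3
      rw [dif_pos ⟨i.2, j.2, l.2⟩]
    rw [this, hw, hw, hw, zb_and]
    unfold mon
    rw [zb_and, zb_and]
    ring
  have h2 : ∑ t : Tri m, zb (C t && mon x t) =
      ((univ.filter fun t => (C t && mon x t) = true).card : ZMod 2) := by
    unfold zb
    rw [Finset.sum_ite, Finset.sum_const_zero, add_zero, Finset.sum_const, nsmul_eq_mul, mul_one]
  rw [h1, h2]
  unfold cub
  rw [decide_eq_true_iff, ZMod.natCast_eq_one_iff_odd]

/-- **The system with the blocks `X` has no solution if and only if the form vanishes at all blocks.** -/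
theorem mq_iff {N : ℕ} (hm : 1 ≤ bs N) (C : Tri (bs N) → Bool)
    (X : Fin (bs N * bs N) → Fin (bs N) → Bool) :
    ¬ MQ (List.ofFn (wd (bpos N) (base N C) X)) ↔ ∀ b, cub C (X b) = false := by
  have h0 := bs_spec hm
  have h1 : MQ (List.ofFn (wd (bpos N) (base N C) X)) ↔
      ∃ x : ℕ → Bool, ∀ e < dim N, Q (dim N) (A0 (bs N) (zX X) (ext3 C) e) x = zb (b0 (bs N) e) := by
    unfold MQ
    rw [List.length_ofFn]
    refine exists_congr fun x => forall_congr' fun e => forall_congr' fun he => ?_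
    rw [getD_wd_rhs N C X he]
    unfold Q
    rw [Finset.sum_congr rfl fun i hi => Finset.sum_congr rfl fun j hj => by
      rw [getD_wd N C X hm he (mem_range.1 hi) (mem_range.1 hj)]]
  rw [h1, sys_iff hm h0]
  constructor
  · intro h b
    by_contra hb
    rw [Bool.not_eq_false] at hb
    refine h ⟨(b : ℕ) / bs N, Nat.div_lt_of_lt_mul b.2, (b : ℕ) % bs N, Nat.mod_lt _ hm, ?_⟩
    refine (cubS_cub C (X b) _ fun i => ?_).2 hb
    unfold zX
    have e1 : (b : ℕ) / bs N * bs N + (b : ℕ) % bs N = b := by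
      rw [mul_comm]
      exact Nat.div_add_mod _ _
    have e2 : (⟨(b : ℕ) / bs N * bs N + (b : ℕ) % bs N, by rw [e1]; exact b.2⟩ :
        Fin (bs N * bs N)) = b := Fin.ext e1
    rw [dif_pos ⟨by rw [e1]; exact b.2, i.2⟩, e2]
  · rintro h ⟨i, hi, j, hj, hc⟩
    have hij : i * bs N + j < bs N * bs N := by
      calc i * bs N + j < i * bs N + bs N := by omega
        _ = (i + 1) * bs N := by ring
        _ ≤ _ := Nat.mul_le_mul_right _ hi
    have := (cubS_cub C (X ⟨i * bs N + j, hij⟩) _ fun l => by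
      unfold zX
      rw [dif_pos ⟨hij, l.2⟩]).1 hc
    rw [h] at this
    exact Bool.noConfusion this

end Pool.Agent.KMQ
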