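import Pool.Agent.KE.Final

/-! Deterministic programs with a stack that answer yes or no. -/

namespace Pool.Agent.KMQ

open Pool.Agent.KNL Pool.Agent.KD Pool.Agent.KE

section
variable {V Γ I : Type}

/-- no edge leaves the node -/
def Halt (P : SBP V Γ I) (v : V) : Prop :=
  (∀ w, ¬ P.free v w) ∧ (∀ i b w, ¬ P.test v i b w) ∧ (∀ a w, ¬ P.push v a w) ∧ (∀ a w, ¬ P.pop v a w)

theorem Halt.acc {P : SBP V Γ I} (hP : Det P) : Halt P P.acc :=
  ⟨fun _ h => hP.acc_free h, fun _ _ _ h => hP.acc_test h, fun _ _ h => hP.acc_push h,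
    fun _ _ h => hP.acc_pop h⟩

/-- complete walks of a deterministic program are unique -/
theorem walk_unique {P : SBP V Γ I} (hP : Det P) {y : I → Bool} {v v' : V} (hv : Halt P v)
    (hv' : Halt P v') {u : V} {s t t' : List Γ} {l l' : List I} (h : P.Walk y u s v t l)
    (h' : P.Walk y u s v' t' l') : v = v' ∧ t = t' ∧ l = l' := by
  induction h generalizing v' t' l' with
  | nil u s =>
    cases h' with
    | nil => exact ⟨rfl, rfl, rfl⟩
    | free h1 _ => exact absurd h1 (hv.1 _)
    | test h1 _ => exact absurd h1 (hv.2.1 _ _ _)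
    | push h1 _ => exact absurd h1 (hv.2.2.1 _ _)
    | pop h1 _ => exact absurd h1 (hv.2.2.2 _ _)
  | free h1 _ ih =>
    cases h' with
    | nil => exact absurd h1 (hv'.1 _)
    | free h2 h3 =>
      rw [← hP.free_free h1 h2] at h3
      exact ih hv hv' h3
    | test h2 _ => exact absurd h2 (hP.free_test h1)
    | push h2 _ => exact absurd h2 (hP.free_push h1)
    | pop h2 _ => exact absurd h2 (hP.free_pop h1)
  | test h1 _ ih =>
    cases h' with
    | nil => exact absurd h1 (hv'.2.1 _ _ _)
    | free h2 _ => exact absurd h1 (hP.free_test h2)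
    | test h2 h3 =>
      obtain ⟨hi, hb⟩ := hP.test_test h1 h2
      subst hi
      rw [← hb rfl] at h3
      obtain ⟨e1, e2, e3⟩ := ih hv hv' h3
      exact ⟨e1, e2, by rw [e3]⟩
    | push h2 _ => exact absurd h2 (hP.test_push h1)
    | pop h2 _ => exact absurd h2 (hP.test_pop h1)
  | push h1 _ ih =>
    cases h' with
    | nil => exact absurd h1 (hv'.2.2.1 _ _)
    | free h2 _ => exact absurd h1 (hP.free_push h2)
    | test h2 _ => exact absurd h1 (hP.test_push h2)
    | push h2 h3 =>
      obtain ⟨ha, hb⟩ := hP.push_push h1 h2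
      subst ha hb
      exact ih hv hv' h3
    | pop h2 _ => exact absurd h2 (hP.push_pop h1)
  | pop h1 _ ih =>
    cases h' with
    | nil => exact absurd h1 (hv'.2.2.2 _ _)
    | free h2 _ => exact absurd h1 (hP.free_pop h2)
    | test h2 _ => exact absurd h1 (hP.test_pop h2)
    | push h2 _ => exact absurd h1 (hP.push_pop h2)
    | pop h2 h3 =>
      rw [← hP.pop_pop h1 h2] at h3
      exact ih hv hv' h3

/-- the program with another accepting node -/
def withAcc (P : SBP V Γ I) (r : V) : SBP V Γ I := { P with acc := r }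

theorem walk_withAcc (P : SBP V Γ I) (r : V) {y : I → Bool} {u w : V} {s t : List Γ} {l : List I} :
    (withAcc P r).Walk y u s w t l ↔ P.Walk y u s w t l := by
  constructor
  · intro h
    induction h with
    | nil u s => exact .nil _ _
    | free h1 _ ih => exact .free h1 ih
    | test h1 _ ih => exact .test h1 ih
    | push h1 _ ih => exact .push h1 ih
    | pop h1 _ ih => exact .pop h1 ih
  · intro h
    induction h with
    | nil u s => exact .nil _ _
    | free h1 _ ih => exact .free h1 ih
    | test h1 _ ih => exact .test h1 ih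
    | push h1 _ ih => exact .push h1 ih
    | pop h1 _ ih => exact .pop h1 ih

theorem det_withAcc {P : SBP V Γ I} (hP : Det P) {r : V} (hr : Halt P r) : Det (withAcc P r) where
  free_free := hP.free_free
  free_test := hP.free_test
  free_push := hP.free_push
  free_pop := hP.free_pop
  test_test := hP.test_test
  test_push := hP.test_push
  test_pop := hP.test_pop
  push_push := hP.push_push
  push_pop := hP.push_pop
  pop_pop := hP.pop_pop
  acc_free := fun h => hr.1 _ h
  acc_test := fun h => hr.2.1 _ _ _ h
  acc_push := fun h => hr.2.2.1 _ _ h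
  acc_pop := fun h => hr.2.2.2 _ _ h

end

/-- the program with the rejecting node `rej` gives the right answer to the question whether `y` is in
the language, with at most `T` tests -/
def Answers {V Γ : Type} {N : ℕ} (L : List Bool → Prop) (P : SBP V Γ (Fin N)) (rej : V) (T : ℕ)
    (y : Fin N → Bool) : Prop :=
  (L (List.ofFn y) → ∃ l, P.Walk y P.src [] P.acc [] l ∧ l.length ≤ T) ∧
    (¬ L (List.ofFn y) → ∃ l, P.Walk y P.src [] rej [] l ∧ l.length ≤ T)

/-- a program that answers correctly, with the accepting and the rejecting node exchanged, is correct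
for the complement -/
theorem Answers.compl {V Γ : Type} {N : ℕ} {L : List Bool → Prop} {P : SBP V Γ (Fin N)} {rej : V}
    {T : ℕ} {y : Fin N → Bool} (hP : Det P) (hr : Halt P rej) (hne : rej ≠ P.acc)
    (h : Answers L P rej T y) : Correct (fun w => ¬ L w) (withAcc P rej) T y := by
  have key : ∀ l, (withAcc P rej).AccWalk y l → ¬ L (List.ofFn y) := by
    intro l hl hL
    obtain ⟨l', hl', _⟩ := h.1 hL
    have h1 : P.Walk y P.src [] rej [] l := (walk_withAcc P rej).1 hl
    exact hne (walk_unique hP hr (Halt.acc hP) h1 hl').1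
  refine ⟨⟨fun ⟨l, hl⟩ => key l hl, fun hL => ?_⟩, fun l hl => ?_⟩
  · obtain ⟨l, hl, _⟩ := h.2 hL
    exact ⟨l, (walk_withAcc P rej).2 hl⟩
  · obtain ⟨l', hl', hT⟩ := h.2 (key l hl)
    have h1 : P.Walk y P.src [] rej [] l := (walk_withAcc P rej).1 hl
    rw [(walk_unique hP hr hr h1 hl').2.2]
    exact hT

end Pool.Agent.KMQ
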