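import Pool.Agent.KMQ.Bridge2
import Pool.Agent.KH.LowE

/-! Nondeterministic programs with a stack for the unsolvable systems. -/

namespace Pool.Agent.KMQ

open Finset Pool.Agent.KNL Pool.Agent.KE Pool.Agent.KH

theorem dim_le_bs2 {N : ℕ} : dim N ≤ 7 * bs2 N + 7 := by
  unfold bs2
  omega

theorem N_le {N b : ℕ} (hb : 1 ≤ b) (h : dim N ≤ 7 * b + 7) : N ≤ 3390 * (b * b * b) := by
  have h1 := dim_max N
  have h2 : dim N + 1 ≤ 15 * b := by omega
  have h3 : (dim N + 1) ^ 3 ≤ (15 * b) ^ 3 := Nat.pow_le_pow_left h2 3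
  have h4 : b ≤ b * b * b := by
    calc b = b * 1 * 1 := by ring
      _ ≤ b * b * b := Nat.mul_le_mul (Nat.mul_le_mul_left _ hb) hb
  calc N ≤ (15 * b) ^ 3 + 15 * b := by omega
    _ = 3375 * (b * b * b) + 15 * b := by ring
    _ ≤ _ := by omega

/-- **Unsolvability is hard for nondeterministic programs with a stack.** -/
theorem mq_nd : ∃ δ x0 : ℝ, 0 < δ ∧ 1 ≤ x0 ∧ ∀ (N S : ℕ), 1 ≤ S → x0 * S ≤ dim N →
    ∀ (V Γ : Type) [Fintype V] (P : SBP V Γ (Fin N)), Fintype.card V ≤ 2 ^ S →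
      (∀ y l, P.AccWalk y l → ¬ MQ (List.ofFn y)) →
      ∀ T : ℕ, (∀ y, ¬ MQ (List.ofFn y) → ∃ l, P.AccWalk y l ∧ l.length ≤ T) →
        N * Real.log (dim N / S) ^ δ ≤ T := by
  obtain ⟨δ, x0, hδ, hx0, h⟩ := time_nd (K := 3390) (by norm_num)
  refine ⟨δ / 2, max (28 * x0) (Real.exp 8), by positivity,
    le_max_of_le_left (by linarith), ?_⟩
  intro N S hS hx V Γ _ P hV hP T hT
  have hS1 : (1 : ℝ) ≤ S := by exact_mod_cast hS
  have hS0 : (0 : ℝ) < S := by linarith
  have hd1 : 28 * x0 * S ≤ dim N := le_trans (mul_le_mul_of_nonneg_right (le_max_left _ _) hS0.le) hx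
  have hd2 : Real.exp 8 * S ≤ dim N := le_trans (mul_le_mul_of_nonneg_right (le_max_right _ _) hS0.le) hx
  have hd28 : (28 : ℝ) ≤ dim N := by
    refine le_trans ?_ hd1
    nlinarith
  have hb : (dim N : ℝ) ≤ 28 * bs2 N := by
    have h1 : (dim N : ℝ) ≤ 7 * bs2 N + 7 := by exact_mod_cast dim_le_bs2
    linarith
  have hb1 : 1 ≤ bs2 N := by
    have : (1 : ℝ) ≤ bs2 N := by linarith
    exact_mod_cast this
  have hbS : x0 * S ≤ bs2 N := by linarith
  have hNK : N ≤ 3390 * (bs2 N * bs2 N * bs2 N) := N_le hb1 dim_le_bs2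
  have key := h N (bs2 N) (bs2 N * bs2 N) S hS hbS hNK (bpos2 N) (fun b b' i i' h => bpos2_inj N h)
    (fun w => ¬ MQ w) (fun D hD hDn => ?_) V Γ P hV hP T hT
  · refine le_trans (mul_le_mul_of_nonneg_left ?_ (Nat.cast_nonneg _)) key
    -- logarithms
    have hL : 8 ≤ Real.log (dim N / S) := by
      rw [Real.le_log_iff_exp_le (by positivity), le_div_iff₀ hS0]
      exact hd2
    have hlog : Real.log (dim N / S) / 2 ≤ Real.log (bs2 N / S) := by
      have h1 : Real.log (dim N / S) ≤ Real.log (28 * (bs2 N / S)) := by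
        refine Real.log_le_log (by positivity) ?_
        rw [← mul_div_assoc]
        exact div_le_div_of_nonneg_right hb hS0.le
      have hbp : (0 : ℝ) < bs2 N := by exact_mod_cast hb1
      rw [Real.log_mul (by norm_num) (by positivity)] at h1
      have h2 : Real.log 28 ≤ 4 := by
        rw [Real.log_le_iff_le_exp (by norm_num)]
        have : (2.7 : ℝ) < Real.exp 1 := lt_trans (by norm_num) Real.exp_one_gt_d9
        calc (28 : ℝ) ≤ 2.7 ^ 4 := by norm_num
          _ ≤ Real.exp 1 ^ 4 := pow_le_pow_left₀ (by norm_num) this.le 4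
          _ = Real.exp 4 := by rw [← Real.exp_nat_mul]; norm_num
      linarith
    have h0 : 0 ≤ Real.log (dim N / S) / 2 := by linarith
    refine le_trans ?_ (Real.rpow_le_rpow h0 hlog hδ.le)
    have h3 : Real.log (dim N / S) ^ (δ / 2) ≤ (Real.log (dim N / S) / 2) ^ δ := by
      have h4 : Real.log (dim N / S) ≤ (Real.log (dim N / S) / 2) ^ (2 : ℝ) := by
        rw [show (2 : ℝ) = ((2 : ℕ) : ℝ) by norm_num, Real.rpow_natCast]
        nlinarith
      calc Real.log (dim N / S) ^ (δ / 2) ≤ ((Real.log (dim N / S) / 2) ^ (2 : ℝ)) ^ (δ / 2) :=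
            Real.rpow_le_rpow (by linarith) h4 (by positivity)
        _ = (Real.log (dim N / S) / 2) ^ δ := by
          rw [← Real.rpow_mul h0]
          congr 1
          ring
    exact h3
  · exact emb_hashq (fun r M t => base2 N M t) (fun r hr M t X => by
      rw [mq2_iff hb1 hr]
      rfl) hD hDn

end Pool.Agent.KMQ
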