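import Pool.Agent.KMQ.Abs
import Pool.Agent.KMQ.Bridge
import Pool.Agent.KMQ.Dec
import Pool.Agent.KMQ.FinN

/-! Two-sided error for the solvability of quadratic systems. -/

namespace Pool.Agent.KMQ

open Finset Pool.Agent.KNL Pool.Agent.KD Pool.Agent.KE Pool.Agent.KH

theorem dim_le_bs {N : ℕ} : dim N ≤ 7 * bs N + 7 := by
  unfold bs
  omega

theorem bs_le_dim {N : ℕ} : bs N ≤ dim N := by
  unfold bs
  omega

open Classical in
/-- **Solvability is hard with two-sided error.** -/
theorem mq_two : ∃ c x0 : ℝ, 0 < c ∧ 1 ≤ x0 ∧ ∀ (N S : ℕ) (η : ℝ), 1 ≤ S → x0 * S ≤ dim N →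
    1 / 2 ^ S ≤ η → ∀ (ι : Type) [Fintype ι] (w : ι → ℝ) (V Γ : ι → Type) [∀ i, Fintype (V i)]
      (P : ∀ i, SBP (V i) (Γ i) (Fin N)) (rej : ∀ i, V i), (∀ i, 0 ≤ w i) → ∑ i, w i = 1 →
      (∀ i, Det (P i) ∧ Halt (P i) (rej i) ∧ rej i ≠ (P i).acc ∧ Fintype.card (V i) ≤ 2 ^ S) →
      ∀ T : ℕ, (∀ y, 1 / 2 + η ≤ ∑ i, if Answers MQ (P i) (rej i) T y then w i else 0) →
        c * η * N * Real.log (dim N / S) / Real.log (Real.log (dim N / S)) ≤ T := by
  obtain ⟨c, x0, hc, hx0, h⟩ := time_abs 3390 (by norm_num)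
  refine ⟨c / 2, max (28 * x0) (28 * Real.exp 8), by positivity,
    le_max_of_le_left (by linarith), ?_⟩
  intro N S η hS hx hη ι _ w V Γ _ P rej hw0 hw1 hP T hT
  have hS1 : (1 : ℝ) ≤ S := by exact_mod_cast hS
  have hS0 : (0 : ℝ) < S := by linarith
  have hd1 : 28 * x0 * S ≤ dim N := le_trans (mul_le_mul_of_nonneg_right (le_max_left _ _) hS0.le) hx
  have hd2 : 28 * Real.exp 8 * S ≤ dim N :=
    le_trans (mul_le_mul_of_nonneg_right (le_max_right _ _) hS0.le) hx
  have hd28 : (28 : ℝ) ≤ dim N := by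
    refine le_trans ?_ hd1
    nlinarith
  have hb : (dim N : ℝ) ≤ 28 * bs N := by
    have h1 : (dim N : ℝ) ≤ 7 * bs N + 7 := by exact_mod_cast dim_le_bs
    linarith
  have hb1 : 1 ≤ bs N := by
    have : (1 : ℝ) ≤ bs N := by linarith
    exact_mod_cast this
  have hbp : (0 : ℝ) < bs N := by exact_mod_cast hb1
  have hbS : x0 * S ≤ bs N := by linarith
  have hNK : N ≤ 3390 * (bs N * bs N * bs N) := N_le hb1 dim_le_bs
  have key := h N (bs N) (bs N * bs N) S η hS hbS (Nat.mul_pos hb1 hb1) hNK hη (bpos N)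
    (fun b b' i i' h => bpos_inj N h) (fun w => ¬ MQ w) (fun C => ⟨base N C, fun X => mq_iff hb1 C X⟩)
    ι w V Γ (fun i => withAcc (P i) (rej i)) hw0 hw1
    (fun i => ⟨det_withAcc (hP i).1 (hP i).2.1, (hP i).2.2.2⟩) T (fun y => ?_)
  · refine le_trans ?_ key
    have hη0 : 0 ≤ η := le_trans (by positivity) hη
    -- logarithms
    have hL : 8 ≤ Real.log (bs N / S) := by
      rw [Real.le_log_iff_exp_le (by positivity), le_div_iff₀ hS0]
      linarith
    have hle : Real.log (bs N / S) ≤ Real.log (dim N / S) := by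
      refine Real.log_le_log (by positivity) ?_
      refine div_le_div_of_nonneg_right ?_ hS0.le
      exact_mod_cast bs_le_dim
    have hlog : Real.log (dim N / S) ≤ 2 * Real.log (bs N / S) := by
      have h1 : Real.log (dim N / S) ≤ Real.log (28 * (bs N / S)) := by
        refine Real.log_le_log (by positivity) ?_
        rw [← mul_div_assoc]
        exact div_le_div_of_nonneg_right hb hS0.le
      rw [Real.log_mul (by norm_num) (by positivity)] at h1
      have h2 : Real.log 28 ≤ 4 := by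
        rw [Real.log_le_iff_le_exp (by norm_num)]
        have : (2.7 : ℝ) < Real.exp 1 := lt_trans (by norm_num) Real.exp_one_gt_d9
        calc (28 : ℝ) ≤ 2.7 ^ 4 := by norm_num
          _ ≤ Real.exp 1 ^ 4 := pow_le_pow_left₀ (by norm_num) this.le 4
          _ = Real.exp 4 := by rw [← Real.exp_nat_mul]; norm_num
      linarith
    have hl1 : 0 < Real.log (Real.log (bs N / S)) := Real.log_pos (by linarith)
    have hl2 : Real.log (Real.log (bs N / S)) ≤ Real.log (Real.log (dim N / S)) :=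
      Real.log_le_log (by linarith) hle
    have h1 : c / 2 * η * N * Real.log (dim N / S) ≤ c * η * N * Real.log (bs N / S) := by
      have h3 : 0 ≤ c / 2 * η * N := by positivity
      calc c / 2 * η * N * Real.log (dim N / S) ≤ c / 2 * η * N * (2 * Real.log (bs N / S)) :=
            mul_le_mul_of_nonneg_left hlog h3
        _ = c * η * N * Real.log (bs N / S) := by ring
    have h0 : 0 ≤ c * η * N * Real.log (bs N / S) := by
      have : 0 ≤ Real.log (bs N / S) := by linarith
      positivity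
    calc c / 2 * η * N * Real.log (dim N / S) / Real.log (Real.log (dim N / S))
        ≤ c * η * N * Real.log (bs N / S) / Real.log (Real.log (dim N / S)) :=
          div_le_div_of_nonneg_right h1 (hl1.le.trans hl2)
      _ ≤ _ := div_le_div_of_nonneg_left h0 hl1 hl2
  · refine (hT y).trans (Finset.sum_le_sum fun i _ => ?_)
    split_ifs with h1 h2 h2
    · exact le_rfl
    · exact absurd (h1.compl (hP i).1 (hP i).2.1 (hP i).2.2.1) h2
    · exact hw0 i
    · exact le_rfl

end Pool.Agent.KMQ
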