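import Pool.Agent.KMQ.It
import Pool.Agent.KMQ.Bridge
import Pool.Agent.KH.ShiftX

/-! The words of the iterated quadratic maps. -/

namespace Pool.Agent.KMQ

open Finset Pool.Agent.KE Pool.Agent.KH

/-- the size of the blocks -/
def bsI (N : ℕ) : ℕ := (dim N - 2) / 4

theorem bsI_spec {N : ℕ} (h : 1 ≤ bsI N) : 4 * bsI N + 2 ≤ dim N := by
  unfold bsI at *
  omega

theorem blockI_lt {N : ℕ} {b l : ℕ} (hb : b < bsI N * bsI N) (hl : l < bsI N) :
    ((bsI N + 1 + l) * dim N + (1 + b / bsI N)) * dim N + (1 + b % bsI N) < dim N ^ 3 := by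
  have hm : 1 ≤ bsI N := by omega
  have h1 := bsI_spec hm
  have h2 : b / bsI N < bsI N := Nat.div_lt_of_lt_mul hb
  have h3 : b % bsI N < bsI N := Nat.mod_lt _ hm
  exact pos_lt3 (by omega) (by omega) (by omega)

/-- the position of letter `l` of the block `b` -/
def bposI (N : ℕ) (b : Fin (bsI N * bsI N)) (l : Fin (bsI N)) : Fin N :=
  ⟨((bsI N + 1 + l) * dim N + (1 + (b : ℕ) / bsI N)) * dim N + (1 + (b : ℕ) % bsI N), by
    have := blockI_lt (N := N) b.2 l.2
    have := dim_spec N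
    omega⟩

theorem bposI_inj (N : ℕ) {b b' : Fin (bsI N * bsI N)} {l l' : Fin (bsI N)}
    (h : bposI N b l = bposI N b' l') : b = b' ∧ l = l' := by
  have h1 := congrArg Fin.val h
  simp only [bposI] at h1
  have hl := l.2
  have hm : 1 ≤ bsI N := by omega
  have h0 := bsI_spec hm
  have h2 : (b : ℕ) / bsI N < bsI N := Nat.div_lt_of_lt_mul b.2
  have h3 : (b : ℕ) % bsI N < bsI N := Nat.mod_lt _ hm
  have h2' : (b' : ℕ) / bsI N < bsI N := Nat.div_lt_of_lt_mul b'.2
  have h3' : (b' : ℕ) % bsI N < bsI N := Nat.mod_lt _ hm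
  obtain ⟨e1, e2, e3⟩ := split3 (n := dim N) (e := bsI N + 1 + l) (i := 1 + (b : ℕ) / bsI N)
    (j := 1 + (b : ℕ) % bsI N) (by omega) (by omega)
  obtain ⟨f1, f2, f3⟩ := split3 (n := dim N) (e := bsI N + 1 + l') (i := 1 + (b' : ℕ) / bsI N)
    (j := 1 + (b' : ℕ) % bsI N) (by omega) (by omega)
  rw [h1] at e1 e2 e3
  have g1 : (l : ℕ) = l' := by omega
  have g2 : (b : ℕ) / bsI N = b' / bsI N := by omega
  have g3 : (b : ℕ) % bsI N = b' % bsI N := by omega
  refine ⟨Fin.ext ?_, Fin.ext g1⟩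
  rw [← Nat.div_add_mod (b : ℕ) (bsI N), ← Nat.div_add_mod (b' : ℕ) (bsI N), g2, g3]

/-- the word of the map without blocks -/
def baseI (N : ℕ) (C : ℕ → ℕ → ℕ → Bool) (k : ℕ → Bool) (o : Bool) (p : Fin N) : Bool :=
  if (p : ℕ) < dim N ^ 3 then
    AI (bsI N) (dim N) (fun _ _ _ => false) C k o ((p : ℕ) / dim N / dim N) ((p : ℕ) / dim N % dim N)
      ((p : ℕ) % dim N)
  else false

theorem AI_off {m n : ℕ} {z z' C : ℕ → ℕ → ℕ → Bool} {k : ℕ → Bool} {o : Bool} {e i j : ℕ}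
    (h : ¬ (m + 1 ≤ e ∧ e < 2 * m + 1 ∧ 1 ≤ i ∧ i < 1 + m ∧ 1 ≤ j ∧ j < 1 + m)) :
    AI m n z C k o e i j = AI m n z' C k o e i j := by
  unfold AI
  by_cases h1 : e < m + 1
  · rw [if_pos h1, if_pos h1]
  rw [if_neg h1, if_neg h1]
  by_cases h2 : e < 2 * m + 1
  · rw [if_pos h2, if_pos h2]
    have : (decide (1 ≤ i ∧ i < 1 + m) && decide (1 ≤ j ∧ j < 1 + m)) = false := by
      rw [Bool.and_eq_false_iff, decide_eq_false_iff_not, decide_eq_false_iff_not]
      by_contra hc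
      push Not at hc
      apply h
      omega
    rw [this, Bool.false_and, Bool.false_and]
  rw [if_neg h2, if_neg h2]

theorem AI_on {m n : ℕ} {z C : ℕ → ℕ → ℕ → Bool} {k : ℕ → Bool} {o : Bool} {l i j : ℕ} (hl : l < m)
    (hi : i < m) (hj : j < m) : AI m n z C k o (m + 1 + l) (1 + i) (1 + j) = z i j l := by
  unfold AI
  rw [if_neg (by omega), if_pos (by omega)]
  have h2 : decide (1 ≤ 1 + i ∧ 1 + i < 1 + m) = true := decide_eq_true (by omega)
  have h3 : decide (1 ≤ 1 + j ∧ 1 + j < 1 + m) = true := decide_eq_true (by omega)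
  rw [h2, h3, Bool.true_and, Bool.true_and, Nat.add_sub_cancel_left, Nat.add_sub_cancel_left,
    Nat.add_sub_cancel_left]

theorem getD_wdI (N : ℕ) (C : ℕ → ℕ → ℕ → Bool) (k : ℕ → Bool) (o : Bool)
    (X : Fin (bsI N * bsI N) → Fin (bsI N) → Bool)
    (hm : 1 ≤ bsI N) {e i j : ℕ} (he : e < dim N) (hi : i < dim N) (hj : j < dim N) :
    (List.ofFn (wd (bposI N) (baseI N C k o) X)).getD ((e * dim N + i) * dim N + j) false =
      AI (bsI N) (dim N) (zX X) C k o e i j := by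
  have h1 := pos_lt3 he hi hj
  have h2 := dim_spec N
  have h3 : (e * dim N + i) * dim N + j < N := by omega
  rw [List.getD_eq_getElem _ _ (by simpa using h3), List.getElem_ofFn]
  by_cases hb : bsI N + 1 ≤ e ∧ e < 2 * bsI N + 1 ∧ 1 ≤ i ∧ i < 1 + bsI N ∧ 1 ≤ j ∧ j < 1 + bsI N
  · obtain ⟨l, rfl⟩ : ∃ l, e = bsI N + 1 + l := ⟨e - (bsI N + 1), by omega⟩
    obtain ⟨i', rfl⟩ : ∃ i', i = 1 + i' := ⟨i - 1, by omega⟩
    obtain ⟨j', rfl⟩ : ∃ j', j = 1 + j' := ⟨j - 1, by omega⟩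
    have hl : l < bsI N := by omega
    have hi' : i' < bsI N := by omega
    have hj' : j' < bsI N := by omega
    have hij : i' * bsI N + j' < bsI N * bsI N := by
      calc i' * bsI N + j' < i' * bsI N + bsI N := by omega
        _ = (i' + 1) * bsI N := by ring
        _ ≤ _ := Nat.mul_le_mul_right _ hi'
    have e1 : (i' * bsI N + j') / bsI N = i' := by
      rw [mul_comm, Nat.mul_add_div (by omega), Nat.div_eq_of_lt hj', add_zero]
    have e2 : (i' * bsI N + j') % bsI N = j' := by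
      rw [mul_comm, Nat.mul_add_mod, Nat.mod_eq_of_lt hj']
    rw [AI_on hl hi' hj']
    have h4 : (⟨((bsI N + 1 + l) * dim N + (1 + i')) * dim N + (1 + j'), h3⟩ : Fin N) =
        bposI N ⟨i' * bsI N + j', hij⟩ ⟨l, hl⟩ := by
      refine Fin.ext ?_
      simp only [bposI]
      rw [e1, e2]
    rw [h4, wd_pos (fun b b' l l' h => bposI_inj N h)]
    unfold zX
    rw [dif_pos ⟨hij, hl⟩]
  · rw [wd_off]
    · unfold baseI
      rw [if_pos h1]
      obtain ⟨f1, f2, f3⟩ := split3 (n := dim N) (e := e) hi hj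
      simp only [f1, f2, f3]
      exact AI_off hb
    · intro b l h
      have h4 := congrArg Fin.val h
      simp only [bposI] at h4
      have hb2 : (b : ℕ) / bsI N < bsI N := Nat.div_lt_of_lt_mul b.2
      have hb3 : (b : ℕ) % bsI N < bsI N := Nat.mod_lt _ hm
      have h0 := bsI_spec hm
      have hl := l.2
      obtain ⟨e1, e2, e3⟩ := split3 (n := dim N) (e := bsI N + 1 + l) (i := 1 + (b : ℕ) / bsI N)
        (j := 1 + (b : ℕ) % bsI N) (by omega) (by omega)
      obtain ⟨f1, f2, f3⟩ := split3 (n := dim N) (e := e) hi hj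
      rw [h4] at e1 e2 e3
      have g1 : e = bsI N + 1 + l := by omega
      have g2 : i = 1 + (b : ℕ) / bsI N := by omega
      have g3 : j = 1 + (b : ℕ) % bsI N := by omega
      clear e1 e2 e3 f1 f2 f3 h4 h
      generalize (b : ℕ) / bsI N = q at *
      generalize (b : ℕ) % bsI N = q' at *
      exact hb ⟨by omega, by omega, by omega, by omega, by omega, by omega⟩

theorem wI_xs {m : ℕ} (X : Fin (m * m) → Fin m → Bool) (l : Fin m) : wI m (zX X) l = xs X l := by
  unfold wI xs ob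
  congr 2
  rw [← Equiv.sum_comp finProdFinEquiv, Fintype.sum_prod_type, Finset.sum_range]
  refine Finset.sum_congr rfl fun i _ => ?_
  rw [Finset.sum_range]
  refine Finset.sum_congr rfl fun j _ => ?_
  have h1 : (i : ℕ) * m + j < m * m := by
    calc (i : ℕ) * m + j < i * m + m := by omega
      _ = (i + 1) * m := by ring
      _ ≤ _ := Nat.mul_le_mul_right _ i.2
  unfold zX
  rw [dif_pos ⟨h1, l.2⟩]
  congr 2
  refine Fin.ext ?_
  simp only [finProdFinEquiv_apply_val]
  ring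

/-- **The iterated map with the blocks `X` computes the cubic form of the sum of the blocks.** -/
theorem it_iff {t : ℕ → ℕ} (ht : ∀ n, n ≤ t n) {N : ℕ} (hm : 1 ≤ bsI N) (C : Tri (bsI N) → Bool)
    (X : Fin (bsI N * bsI N) → Fin (bsI N) → Bool) :
    It t (List.ofFn (wd (bposI N) (baseI N (ext3 C) (fun _ => false) true) X)) ↔ cub C (xs X) = true := by
  have h0 := bsI_spec hm
  unfold It
  rw [List.length_ofFn, it_eq hm h0 (fun e he i hi j hj => getD_wdI N (ext3 C) _ true X hm he hi hj)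
    ((ht _).trans (Nat.le_succ _)), ← cubS_cub C (xs X) (wI (bsI N) (zX X)) (wI_xs X)]
  unfold oI
  rw [if_pos rfl]
  unfold ob
  rw [decide_eq_true_iff]
  have h1 : ∑ i ∈ range (bsI N), zb (wI (bsI N) (zX X) i) *
      zb (tI (bsI N) (zX X) (ext3 C) (fun _ => false) i) = cubS (bsI N) (ext3 C) (wI (bsI N) (zX X)) := by
    unfold cubS
    refine Finset.sum_congr rfl fun i _ => ?_
    unfold tI
    rw [zb_ob, zb_false, zero_add]
  rw [h1]

end Pool.Agent.KMQ
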