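import Pool.Agent.KMQ.AbsX
import Pool.Agent.KMQ.ItB
import Pool.Agent.KMQ.Fin

/-! Two-sided error for iterated quadratic maps, and the theorem for all languages together. -/

namespace Pool.Agent.KMQ

open Finset Pool.Agent.KNL Pool.Agent.KD Pool.Agent.KE Pool.Agent.KH

/-- a program that answers correctly is correct -/
theorem Answers.correct {V Γ : Type} {N : ℕ} {L : List Bool → Prop} {P : SBP V Γ (Fin N)} {rej : V}
    {T : ℕ} {y : Fin N → Bool} (hP : Det P) (hr : Halt P rej) (hne : rej ≠ P.acc)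
    (h : Answers L P rej T y) : Correct L P T y := by
  have key : ∀ l, P.AccWalk y l → L (List.ofFn y) := by
    intro l hl
    by_contra hL
    obtain ⟨l', hl', _⟩ := h.2 hL
    exact hne (walk_unique hP hr (Halt.acc hP) hl' hl).1
  refine ⟨⟨fun ⟨l, hl⟩ => key l hl, fun hL => ?_⟩, fun l hl => ?_⟩
  · obtain ⟨l, hl, _⟩ := h.1 hL
    exact ⟨l, hl⟩
  · obtain ⟨l', hl', hT⟩ := h.1 (key l hl)
    rw [(walk_unique hP (Halt.acc hP) (Halt.acc hP) hl hl').2.2]
    exact hT

theorem dim_le_bsI {N : ℕ} : dim N ≤ 7 * bsI N + 7 := by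
  unfold bsI
  omega

theorem bsI_le_dim {N : ℕ} : bsI N ≤ dim N := by
  unfold bsI
  omega

/-- the bound in terms of the dimension -/
theorem log_transfer {d b S : ℕ} {c η M : ℝ} (hc : 0 ≤ c) (hη : 0 ≤ η) (hM : 0 ≤ M) (hS : 1 ≤ S)
    (hd2 : 28 * Real.exp 8 * S ≤ d) (hb : (d : ℝ) ≤ 28 * b) (hbd : b ≤ d) :
    c / 2 * η * M * Real.log (d / S) / Real.log (Real.log (d / S)) ≤
      c * η * M * Real.log (b / S) / Real.log (Real.log (b / S)) := by
  have hS1 : (1 : ℝ) ≤ S := by exact_mod_cast hS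
  have hS0 : (0 : ℝ) < S := by linarith
  have hd0 : (0 : ℝ) < d := lt_of_lt_of_le (by positivity) hd2
  have hbp : (0 : ℝ) < b := by linarith
  have hL : 8 ≤ Real.log (b / S) := by
    rw [Real.le_log_iff_exp_le (by positivity), le_div_iff₀ hS0]
    linarith
  have hle : Real.log (b / S) ≤ Real.log (d / S) := by
    refine Real.log_le_log (by positivity) ?_
    refine div_le_div_of_nonneg_right ?_ hS0.le
    exact_mod_cast hbd
  have hlog : Real.log (d / S) ≤ 2 * Real.log (b / S) := by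
    have h1 : Real.log (d / S) ≤ Real.log (28 * (b / S)) := by
      refine Real.log_le_log (by positivity) ?_
      rw [← mul_div_assoc]
      exact div_le_div_of_nonneg_right hb hS0.le
    rw [Real.log_mul (by norm_num) (by positivity)] at h1
    have h2 : Real.log 28 ≤ 4 := by
      rw [Real.log_le_iff_le_exp (by norm_num)]
      have : (2.7 : ℝ) < Real.exp 1 := lt_trans (by norm_num) Real.exp_one_gt_d9
      calc (28 : ℝ) ≤ 2.7 ^ 4 := by norm_num
        _ ≤ Real.exp 1 ^ 4 := pow_le_pow_left₀ (by norm_num) this.le 4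
        _ = Real.exp 4 := by rw [← Real.exp_nat_mul]; norm_num
    linarith
  have hl1 : 0 < Real.log (Real.log (b / S)) := Real.log_pos (by linarith)
  have hl2 : Real.log (Real.log (b / S)) ≤ Real.log (Real.log (d / S)) :=
    Real.log_le_log (by linarith) hle
  have h1 : c / 2 * η * M * Real.log (d / S) ≤ c * η * M * Real.log (b / S) := by
    have h3 : 0 ≤ c / 2 * η * M := by positivity
    calc c / 2 * η * M * Real.log (d / S) ≤ c / 2 * η * M * (2 * Real.log (b / S)) :=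
          mul_le_mul_of_nonneg_left hlog h3
      _ = c * η * M * Real.log (b / S) := by ring
  have h0 : 0 ≤ c * η * M * Real.log (b / S) := by
    have : 0 ≤ Real.log (b / S) := by linarith
    positivity
  calc c / 2 * η * M * Real.log (d / S) / Real.log (Real.log (d / S))
      ≤ c * η * M * Real.log (b / S) / Real.log (Real.log (d / S)) :=
        div_le_div_of_nonneg_right h1 (hl1.le.trans hl2)
    _ ≤ _ := div_le_div_of_nonneg_left h0 hl1 hl2

open Classical in
/-- **Iterated quadratic maps are hard with two-sided error.** -/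
theorem it_two : ∃ c x0 : ℝ, 0 < c ∧ 1 ≤ x0 ∧ ∀ t : ℕ → ℕ, (∀ n, n ≤ t n) → ∀ (N S : ℕ) (η : ℝ),
    1 ≤ S → x0 * S ≤ dim N →
    1 / 2 ^ S ≤ η → ∀ (ι : Type) [Fintype ι] (w : ι → ℝ) (V Γ : ι → Type) [∀ i, Fintype (V i)]
      (P : ∀ i, SBP (V i) (Γ i) (Fin N)) (rej : ∀ i, V i), (∀ i, 0 ≤ w i) → ∑ i, w i = 1 →
      (∀ i, Det (P i) ∧ Halt (P i) (rej i) ∧ rej i ≠ (P i).acc ∧ Fintype.card (V i) ≤ 2 ^ S) →
      ∀ T : ℕ, (∀ y, 1 / 2 + η ≤ ∑ i, if Answers (It t) (P i) (rej i) T y then w i else 0) →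
        c * η * N * Real.log (dim N / S) / Real.log (Real.log (dim N / S)) ≤ T := by
  obtain ⟨c, x0, hc, hx0, h⟩ := time_absx 3390 (by norm_num)
  refine ⟨c / 2, max (28 * x0) (28 * Real.exp 8), by positivity,
    le_max_of_le_left (by linarith), ?_⟩
  intro t ht N S η hS hx hη ι _ w V Γ _ P rej hw0 hw1 hP T hT
  have hS1 : (1 : ℝ) ≤ S := by exact_mod_cast hS
  have hS0 : (0 : ℝ) < S := by linarith
  have hd1 : 28 * x0 * S ≤ dim N := le_trans (mul_le_mul_of_nonneg_right (le_max_left _ _) hS0.le) hx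
  have hd2 : 28 * Real.exp 8 * S ≤ dim N :=
    le_trans (mul_le_mul_of_nonneg_right (le_max_right _ _) hS0.le) hx
  have hd28 : (28 : ℝ) ≤ dim N := by
    refine le_trans ?_ hd1
    nlinarith
  have hb : (dim N : ℝ) ≤ 28 * bsI N := by
    have h1 : (dim N : ℝ) ≤ 7 * bsI N + 7 := by exact_mod_cast dim_le_bsI
    linarith
  have hb1 : 1 ≤ bsI N := by
    have : (1 : ℝ) ≤ bsI N := by linarith
    exact_mod_cast this
  have hbS : x0 * S ≤ bsI N := by linarith
  have hNK : N ≤ 3390 * (bsI N * bsI N * bsI N) := N_le hb1 dim_le_bsI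
  have key := h N (bsI N) (bsI N * bsI N) S η hS hbS (Nat.mul_pos hb1 hb1) hNK hη (bposI N)
    (fun b b' i i' h => bposI_inj N h) (It t) (fun C => ⟨_, fun X => it_iff ht hb1 C X⟩)
    ι w V Γ P hw0 hw1 (fun i => ⟨(hP i).1, (hP i).2.2.2⟩) T (fun y => ?_)
  · refine le_trans ?_ key
    exact log_transfer hc.le (le_trans (by positivity) hη) (Nat.cast_nonneg _) hS hd2 hb bsI_le_dim
  · refine (hT y).trans (Finset.sum_le_sum fun i _ => ?_)
    split_ifs with h1 h2 h2
    · exact le_rfl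
    · exact absurd (h1.correct (hP i).1 (hP i).2.1 (hP i).2.2.1) h2
    · exact hw0 i
    · exact le_rfl

open Classical in
/-- **All languages together.** -/
theorem all_two : ∃ c x0 : ℝ, 0 < c ∧ 1 ≤ x0 ∧ ∀ L : List Bool → Prop,
    (L = MQ ∨ ∃ t : ℕ → ℕ, (∀ n, n ≤ t n) ∧ L = It t) → ∀ (N S : ℕ) (η : ℝ),
    1 ≤ S → x0 * S ≤ dim N →
    1 / 2 ^ S ≤ η → ∀ (ι : Type) [Fintype ι] (w : ι → ℝ) (V Γ : ι → Type) [∀ i, Fintype (V i)]
      (P : ∀ i, SBP (V i) (Γ i) (Fin N)) (rej : ∀ i, V i), (∀ i, 0 ≤ w i) → ∑ i, w i = 1 →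
      (∀ i, Det (P i) ∧ Halt (P i) (rej i) ∧ rej i ≠ (P i).acc ∧ Fintype.card (V i) ≤ 2 ^ S) →
      ∀ T : ℕ, (∀ y, 1 / 2 + η ≤ ∑ i, if Answers L (P i) (rej i) T y then w i else 0) →
        c * η * N * Real.log (dim N / S) / Real.log (Real.log (dim N / S)) ≤ T := by
  obtain ⟨c, x0, hc, hx0, h⟩ := mq_two
  obtain ⟨c', x0', hc', hx0', h'⟩ := it_two
  refine ⟨min c c', max (max x0 x0') (Real.exp (Real.exp 1)), lt_min hc hc',
    le_max_of_le_left (le_max_of_le_left hx0), ?_⟩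
  intro L hL N S η hS hx hη ι _ w V Γ _ P rej hw0 hw1 hP T hT
  have hS1 : (1 : ℝ) ≤ S := by exact_mod_cast hS
  have hS0 : (0 : ℝ) < S := by linarith
  have hx1 : x0 * S ≤ dim N := le_trans (mul_le_mul_of_nonneg_right
    ((le_max_left _ _).trans (le_max_left _ _)) hS0.le) hx
  have hx2 : x0' * S ≤ dim N := le_trans (mul_le_mul_of_nonneg_right
    ((le_max_right _ _).trans (le_max_left _ _)) hS0.le) hx
  have hx3 : Real.exp (Real.exp 1) * S ≤ dim N := le_trans (mul_le_mul_of_nonneg_right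
    (le_max_right _ _) hS0.le) hx
  have hη0 : 0 ≤ η := le_trans (by positivity) hη
  have hq : Real.exp (Real.exp 1) ≤ dim N / S := by
    rw [le_div_iff₀ hS0]
    exact hx3
  have hl : Real.exp 1 ≤ Real.log (dim N / S) := by
    rw [Real.le_log_iff_exp_le (lt_of_lt_of_le (Real.exp_pos _) hq)]
    exact hq
  have hl0 : 0 ≤ Real.log (dim N / S) := (Real.exp_pos _).le.trans hl
  have hll : 0 ≤ Real.log (Real.log (dim N / S)) :=
    Real.log_nonneg (le_trans (by have := Real.add_one_le_exp 1; linarith) hl)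
  have mono : ∀ a, min c c' ≤ a → min c c' * η * N * Real.log (dim N / S) /
      Real.log (Real.log (dim N / S)) ≤
        a * η * N * Real.log (dim N / S) / Real.log (Real.log (dim N / S)) := by
    intro a ha
    refine div_le_div_of_nonneg_right ?_ hll
    refine mul_le_mul_of_nonneg_right ?_ hl0
    refine mul_le_mul_of_nonneg_right ?_ (Nat.cast_nonneg _)
    exact mul_le_mul_of_nonneg_right ha hη0
  rcases hL with rfl | ⟨t, ht, rfl⟩
  · exact (mono c (min_le_left _ _)).trans (h N S η hS hx1 hη ι w V Γ P rej hw0 hw1 hP T hT)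
  · exact (mono c' (min_le_right _ _)).trans (h' t ht N S η hS hx2 hη ι w V Γ P rej hw0 hw1 hP T hT)

end Pool.Agent.KMQ
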