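import Pool.Agent.KMQ.Defs

/-! A system of quadratic equations with `m ^ 2` blocks of `m` free coefficients that is solvable if and
only if a given cubic form does not vanish at one of the blocks. -/

namespace Pool.Agent.KMQ

open Finset Pool.Agent.KE

/-- the value of the quadratic form with the coefficients `P` -/
def Q (n : ℕ) (P : ℕ → ℕ → Bool) (x : ℕ → Bool) : ZMod 2 :=
  ∑ i ∈ range n, ∑ j ∈ range n, zb (P i j) * zb (x i) * zb (x j)

theorem zb_sq (b : Bool) : zb b * zb b = zb b := by cases b <;> decide

theorem zb_true : zb true = 1 := rfl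

theorem zb_false : zb false = 0 := rfl

theorem zb_inj {a b : Bool} : zb a = zb b ↔ a = b := by cases a <;> cases b <;> decide

theorem Q_diag {n : ℕ} (S : Finset ℕ) (hS : S ⊆ range n) (x : ℕ → Bool) :
    Q n (fun i j => decide (i = j) && decide (i ∈ S)) x = ∑ i ∈ S, zb (x i) := by
  unfold Q
  have h1 : ∀ i ∈ range n, ∑ j ∈ range n, zb (decide (i = j) && decide (i ∈ S)) * zb (x i) * zb (x j) =
      if i ∈ S then zb (x i) else 0 := by
    intro i hi
    rw [Finset.sum_eq_single i]
    · by_cases h : i ∈ S
      · simp [h, zb_true, zb_sq]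
      · simp [h, zb_false]
    · intro j _ hj
      simp [Ne.symm hj, zb_false]
    · intro h
      exact absurd hi h
  rw [Finset.sum_congr rfl h1, ← Finset.sum_filter]
  congr 1
  ext i
  rw [mem_filter]
  exact ⟨fun h => h.2, fun h => ⟨hS h, h⟩⟩

theorem sum_window {n a m : ℕ} (h : a + m ≤ n) (f : ℕ → ZMod 2) :
    ∑ i ∈ range n, (if a ≤ i ∧ i < a + m then f i else 0) = ∑ i ∈ range m, f (a + i) := by
  rw [← Finset.sum_filter]
  have : (range n).filter (fun i => a ≤ i ∧ i < a + m) = (range m).map (addLeftEmbedding a) := by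
    ext i
    rw [mem_filter, mem_range, mem_map]
    constructor
    · rintro ⟨_, h1, h2⟩
      exact ⟨i - a, mem_range.2 (by omega), by simp; omega⟩
    · rintro ⟨k, hk, rfl⟩
      have := mem_range.1 hk
      simp only [addLeftEmbedding_apply]
      omega
  rw [this, Finset.sum_map]
  rfl

theorem Q_box {n a b m : ℕ} (ha : a + m ≤ n) (hb : b + m ≤ n) (R : ℕ → ℕ → Bool) (x : ℕ → Bool) :
    Q n (fun i j => (decide (a ≤ i ∧ i < a + m) && decide (b ≤ j ∧ j < b + m)) && R (i - a) (j - b)) x =
      ∑ i ∈ range m, ∑ j ∈ range m, zb (R i j) * zb (x (a + i)) * zb (x (b + j)) := by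
  unfold Q
  have h1 : ∀ i ∈ range n, ∑ j ∈ range n,
      zb ((decide (a ≤ i ∧ i < a + m) && decide (b ≤ j ∧ j < b + m)) && R (i - a) (j - b)) * zb (x i) *
        zb (x j) = if a ≤ i ∧ i < a + m then
          ∑ j ∈ range m, zb (R (i - a) j) * zb (x i) * zb (x (b + j)) else 0 := by
    intro i _
    by_cases h : a ≤ i ∧ i < a + m
    · rw [if_pos h]
      have h2 := sum_window hb (fun j => zb (R (i - a) (j - b)) * zb (x i) * zb (x j))
      simp only [Nat.add_sub_cancel_left] at h2
      rw [← h2]
      refine Finset.sum_congr rfl fun j _ => ?_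
      by_cases h' : b ≤ j ∧ j < b + m
      · rw [if_pos h', decide_eq_true h, decide_eq_true h']
        simp
      · rw [if_neg h', decide_eq_false h']
        simp [zb_false]
    · rw [if_neg h, decide_eq_false h]
      simp [zb_false]
  rw [Finset.sum_congr rfl h1]
  have h3 := sum_window ha (fun i => ∑ j ∈ range m, zb (R (i - a) j) * zb (x i) * zb (x (b + j)))
  simp only [Nat.add_sub_cancel_left] at h3
  exact h3

theorem Q_prod {n a b : ℕ} (ha : a < n) (hb : b < n) (x : ℕ → Bool) :
    Q n (fun i j => decide (i = a) && decide (j = b)) x = zb (x a) * zb (x b) := by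
  unfold Q
  rw [Finset.sum_eq_single a, Finset.sum_eq_single b]
  · simp [zb_true]
  · intro j _ hj
    simp [hj, zb_false]
  · intro h
    exact absurd (mem_range.2 hb) h
  · intro i _ hi
    simp [hi, zb_false]
  · intro h
    exact absurd (mem_range.2 ha) h

theorem Q_or {n : ℕ} {P P' : ℕ → ℕ → Bool} (h : ∀ i j, ¬ (P i j = true ∧ P' i j = true))
    (x : ℕ → Bool) : Q n (fun i j => P i j || P' i j) x = Q n P x + Q n P' x := by
  unfold Q
  rw [← Finset.sum_add_distrib]
  refine Finset.sum_congr rfl fun i _ => ?_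
  rw [← Finset.sum_add_distrib]
  refine Finset.sum_congr rfl fun j _ => ?_
  have := h i j
  have e : zb (P i j || P' i j) = zb (P i j) + zb (P' i j) := by
    cases hP : P i j <;> cases hP' : P' i j
    · rfl
    · rfl
    · rfl
    · exact absurd ⟨hP, hP'⟩ this
  show zb (P i j || P' i j) * zb (x i) * zb (x j) = _
  rw [e, add_mul, add_mul]

/-! ### The system -/

/-- the support of a linear equation of the chain of prefix sums: `p e + p (e - 1) + u e`, with `u` at
`a` and `p` at `b` -/
def chain (a b e : ℕ) : Finset ℕ := if e = 0 then {b, a} else {b + e, b + (e - 1), a + e}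

/-- the coefficients; `z` are the blocks, `C` the coefficients of the cubic form -/
def A0 (m : ℕ) (z C : ℕ → ℕ → ℕ → Bool) (e i j : ℕ) : Bool :=
  if e < m then decide (i = j) && decide (i ∈ chain 0 (2 * m) e)
  else if e < 2 * m then decide (i = j) && decide (i ∈ chain m (3 * m) (e - m))
  else if e = 2 * m then decide (i = j) && decide (i ∈ ({2 * m + (m - 1)} : Finset ℕ))
  else if e < 3 * m then decide (i = e - 2 * m) && decide (j = 2 * m + (e - 2 * m - 1))
  else if e = 3 * m then decide (i = j) && decide (i ∈ ({3 * m + (m - 1)} : Finset ℕ))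
  else if e < 4 * m then decide (i = m + (e - 3 * m)) && decide (j = 3 * m + (e - 3 * m - 1))
  else if e < 5 * m then (decide (i = j) && decide (i ∈ ({e} : Finset ℕ))) ||
    ((decide (0 ≤ i ∧ i < 0 + m) && decide (m ≤ j ∧ j < m + m)) && z (i - 0) (j - m) (e - 4 * m))
  else if e < 6 * m then (decide (i = j) && decide (i ∈ ({e} : Finset ℕ))) ||
    ((decide (4 * m ≤ i ∧ i < 4 * m + m) && decide (4 * m ≤ j ∧ j < 4 * m + m)) &&
      C (e - 5 * m) (i - 4 * m) (j - 4 * m))
  else if e = 6 * m then (decide (4 * m ≤ i ∧ i < 4 * m + m) && decide (5 * m ≤ j ∧ j < 5 * m + m)) &&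
    decide (i - 4 * m = j - 5 * m)
  else false

/-- the right hand sides -/
def b0 (m e : ℕ) : Bool := decide (e = 2 * m ∨ e = 3 * m ∨ e = 6 * m)

/-- prefix sums force a one-hot vector -/
theorem onehot {m : ℕ} (hm : 1 ≤ m) (u p : ℕ → Bool) (h0 : zb (p 0) + zb (u 0) = 0)
    (h1 : ∀ i, i + 1 < m → zb (p (i + 1)) + zb (p i) + zb (u (i + 1)) = 0)
    (h2 : ∀ i, i + 1 < m → zb (u (i + 1)) * zb (p i) = 0) (h3 : zb (p (m - 1)) = 1) :
    ∃ i < m, ∀ j < m, u j = decide (j = i) := by
  have key : ∀ k < m, (p k = false ∧ ∀ j ≤ k, u j = false) ∨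
      (p k = true ∧ ∃ i ≤ k, ∀ j ≤ k, u j = decide (j = i)) := by
    intro k
    induction k with
    | zero =>
      intro _
      cases hu : u 0
      · left
        refine ⟨?_, fun j hj => by rw [Nat.le_zero.1 hj, hu]⟩
        rw [hu] at h0
        cases hp : p 0
        · rfl
        · rw [hp] at h0
          exact absurd h0 (by decide)
      · right
        refine ⟨?_, 0, le_rfl, fun j hj => by rw [Nat.le_zero.1 hj, hu]; rfl⟩
        rw [hu] at h0
        cases hp : p 0
        · rw [hp] at h0
          exact absurd h0 (by decide)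
        · rfl
    | succ k ih =>
      intro hk
      have e1 := h1 k hk
      have e2 := h2 k hk
      rcases ih (by omega) with ⟨hp, hu⟩ | ⟨hp, i, hi, hu⟩
      · rw [hp] at e1 e2
        cases hu' : u (k + 1)
        · left
          refine ⟨?_, fun j hj => ?_⟩
          · rw [hu'] at e1
            cases hp' : p (k + 1)
            · rfl
            · rw [hp'] at e1
              exact absurd e1 (by decide)
          · rcases Nat.lt_or_ge j (k + 1) with h | h
            · exact hu j (by omega)
            · rw [show j = k + 1 by omega, hu']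
        · right
          refine ⟨?_, k + 1, le_rfl, fun j hj => ?_⟩
          · rw [hu'] at e1
            cases hp' : p (k + 1)
            · rw [hp'] at e1
              exact absurd e1 (by decide)
            · rfl
          · rcases Nat.lt_or_ge j (k + 1) with h | h
            · rw [hu j (by omega), decide_eq_false (by omega)]
            · rw [show j = k + 1 by omega, hu', decide_eq_true rfl]
      · rw [hp] at e1 e2
        have hu' : u (k + 1) = false := by
          cases h : u (k + 1)
          · rfl
          · rw [h] at e2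
            exact absurd e2 (by decide)
        right
        refine ⟨?_, i, by omega, fun j hj => ?_⟩
        · rw [hu'] at e1
          cases hp' : p (k + 1)
          · rw [hp'] at e1
            exact absurd e1 (by decide)
          · rfl
        · rcases Nat.lt_or_ge j (k + 1) with h | h
          · exact hu j (by omega)
          · rw [show j = k + 1 by omega, hu', decide_eq_false (by omega)]
  rcases key (m - 1) (by omega) with ⟨hp, _⟩ | ⟨_, i, hi, hu⟩
  · rw [hp] at h3
    exact absurd h3 (by decide)
  · exact ⟨i, by omega, fun j hj => hu j (by omega)⟩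


/-! ### Evaluation of the equations -/

section eval

variable {m n : ℕ} (z C : ℕ → ℕ → ℕ → Bool) (x : ℕ → Bool)

theorem chain_zero (a b : ℕ) : chain a b 0 = {b, a} := by simp [chain]

theorem chain_succ (a b e : ℕ) : chain a b (e + 1) = {b + (e + 1), b + e, a + (e + 1)} := by
  simp [chain]

theorem sum_chain_zero {a b : ℕ} (h : a ≠ b) : ∑ i ∈ chain a b 0, zb (x i) = zb (x b) + zb (x a) := by
  rw [chain_zero, Finset.sum_pair (Ne.symm h)]

theorem sum_chain_succ {a b e : ℕ} (h : a + (e + 1) < b) :
    ∑ i ∈ chain a b (e + 1), zb (x i) = zb (x (b + (e + 1))) + zb (x (b + e)) + zb (x (a + (e + 1))) := by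
  rw [chain_succ, Finset.sum_insert, Finset.sum_pair, add_assoc]
  · omega
  · simp only [mem_insert, mem_singleton]
    omega

theorem ev0 (hm : 1 ≤ m) (hn : 6 * m + 1 ≤ n) : Q n (A0 m z C 0) x = zb (x (2 * m)) + zb (x 0) := by
  have h1 : A0 m z C 0 = fun i j => decide (i = j) && decide (i ∈ chain 0 (2 * m) 0) := by
    funext i j
    unfold A0
    rw [if_pos (by omega)]
  rw [h1, Q_diag _ _ x, sum_chain_zero x (by omega)]
  intro i hi
  rw [chain_zero] at hi
  simp only [mem_insert, mem_singleton] at hi
  rw [mem_range]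
  omega

theorem ev1 (hn : 6 * m + 1 ≤ n) {e : ℕ} (he : e + 1 < m) :
    Q n (A0 m z C (e + 1)) x = zb (x (2 * m + (e + 1))) + zb (x (2 * m + e)) + zb (x (0 + (e + 1))) := by
  have h1 : A0 m z C (e + 1) = fun i j => decide (i = j) && decide (i ∈ chain 0 (2 * m) (e + 1)) := by
    funext i j
    unfold A0
    rw [if_pos (by omega)]
  rw [h1, Q_diag _ _ x, sum_chain_succ x (by omega)]
  intro i hi
  rw [chain_succ] at hi
  simp only [mem_insert, mem_singleton] at hi
  rw [mem_range]
  omega

theorem ev2 (hm : 1 ≤ m) (hn : 6 * m + 1 ≤ n) : Q n (A0 m z C m) x = zb (x (3 * m)) + zb (x m) := by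
  have h1 : A0 m z C m = fun i j => decide (i = j) && decide (i ∈ chain m (3 * m) 0) := by
    funext i j
    unfold A0
    rw [if_neg (by omega), if_pos (by omega), Nat.sub_self]
  rw [h1, Q_diag _ _ x, sum_chain_zero x (by omega)]
  intro i hi
  rw [chain_zero] at hi
  simp only [mem_insert, mem_singleton] at hi
  rw [mem_range]
  omega

theorem ev3 (hn : 6 * m + 1 ≤ n) {e : ℕ} (he : e + 1 < m) :
    Q n (A0 m z C (m + (e + 1))) x =
      zb (x (3 * m + (e + 1))) + zb (x (3 * m + e)) + zb (x (m + (e + 1))) := by
  have h1 : A0 m z C (m + (e + 1)) =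
      fun i j => decide (i = j) && decide (i ∈ chain m (3 * m) (e + 1)) := by
    funext i j
    unfold A0
    rw [if_neg (by omega), if_pos (by omega), Nat.add_sub_cancel_left]
  rw [h1, Q_diag _ _ x, sum_chain_succ x (by omega)]
  intro i hi
  rw [chain_succ] at hi
  simp only [mem_insert, mem_singleton] at hi
  rw [mem_range]
  omega

theorem ev4 (hm : 1 ≤ m) (hn : 6 * m + 1 ≤ n) :
    Q n (A0 m z C (2 * m)) x = zb (x (2 * m + (m - 1))) := by
  have h1 : A0 m z C (2 * m) =
      fun i j => decide (i = j) && decide (i ∈ ({2 * m + (m - 1)} : Finset ℕ)) := by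
    funext i j
    unfold A0
    rw [if_neg (by omega), if_neg (by omega), if_pos rfl]
  rw [h1, Q_diag _ _ x, Finset.sum_singleton]
  intro i hi
  rw [mem_singleton] at hi
  rw [mem_range]
  omega

theorem ev5 (hn : 6 * m + 1 ≤ n) {e : ℕ} (he : e + 1 < m) :
    Q n (A0 m z C (2 * m + (e + 1))) x = zb (x (0 + (e + 1))) * zb (x (2 * m + e)) := by
  have h1 : A0 m z C (2 * m + (e + 1)) =
      fun i j => decide (i = 0 + (e + 1)) && decide (j = 2 * m + e) := by
    funext i j
    unfold A0
    rw [if_neg (by omega), if_neg (by omega), if_neg (by omega), if_pos (by omega)]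
    congr 3 <;> omega
  rw [h1, Q_prod (by omega) (by omega)]

theorem ev6 (hm : 1 ≤ m) (hn : 6 * m + 1 ≤ n) :
    Q n (A0 m z C (3 * m)) x = zb (x (3 * m + (m - 1))) := by
  have h1 : A0 m z C (3 * m) =
      fun i j => decide (i = j) && decide (i ∈ ({3 * m + (m - 1)} : Finset ℕ)) := by
    funext i j
    unfold A0
    rw [if_neg (by omega), if_neg (by omega), if_neg (by omega), if_neg (by omega), if_pos rfl]
  rw [h1, Q_diag _ _ x, Finset.sum_singleton]
  intro i hi
  rw [mem_singleton] at hi
  rw [mem_range]
  omega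

theorem ev7 (hn : 6 * m + 1 ≤ n) {e : ℕ} (he : e + 1 < m) :
    Q n (A0 m z C (3 * m + (e + 1))) x = zb (x (m + (e + 1))) * zb (x (3 * m + e)) := by
  have h1 : A0 m z C (3 * m + (e + 1)) =
      fun i j => decide (i = m + (e + 1)) && decide (j = 3 * m + e) := by
    funext i j
    unfold A0
    rw [if_neg (by omega), if_neg (by omega), if_neg (by omega), if_neg (by omega), if_neg (by omega),
      if_pos (by omega)]
    congr 3 <;> omega
  rw [h1, Q_prod (by omega) (by omega)]

theorem ev8 (hn : 6 * m + 1 ≤ n) {l : ℕ} (hl : l < m) :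
    Q n (A0 m z C (4 * m + l)) x = zb (x (4 * m + l)) +
      ∑ i ∈ range m, ∑ j ∈ range m, zb (z i j l) * zb (x (0 + i)) * zb (x (m + j)) := by
  have h1 : A0 m z C (4 * m + l) = fun i j => (decide (i = j) && decide (i ∈ ({4 * m + l} : Finset ℕ))) ||
      ((decide (0 ≤ i ∧ i < 0 + m) && decide (m ≤ j ∧ j < m + m)) && z (i - 0) (j - m) l) := by
    funext i j
    unfold A0
    rw [if_neg (by omega), if_neg (by omega), if_neg (by omega), if_neg (by omega), if_neg (by omega),
      if_neg (by omega), if_pos (by omega), Nat.add_sub_cancel_left]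
  rw [h1, Q_or _ x, Q_diag _ _ x, Finset.sum_singleton, Q_box (by omega) (by omega)
    (fun i j => z i j l) x]
  · intro i hi
    rw [mem_singleton] at hi
    rw [mem_range]
    omega
  · rintro i j ⟨h2, h3⟩
    simp only [mem_singleton, Bool.and_eq_true, decide_eq_true_eq] at h2 h3
    omega

theorem ev9 (hn : 6 * m + 1 ≤ n) {l : ℕ} (hl : l < m) :
    Q n (A0 m z C (5 * m + l)) x = zb (x (5 * m + l)) +
      ∑ i ∈ range m, ∑ j ∈ range m, zb (C l i j) * zb (x (4 * m + i)) * zb (x (4 * m + j)) := by
  have h1 : A0 m z C (5 * m + l) = fun i j => (decide (i = j) && decide (i ∈ ({5 * m + l} : Finset ℕ))) ||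
      ((decide (4 * m ≤ i ∧ i < 4 * m + m) && decide (4 * m ≤ j ∧ j < 4 * m + m)) &&
        C l (i - 4 * m) (j - 4 * m)) := by
    funext i j
    unfold A0
    rw [if_neg (by omega), if_neg (by omega), if_neg (by omega), if_neg (by omega), if_neg (by omega),
      if_neg (by omega), if_neg (by omega), if_pos (by omega), Nat.add_sub_cancel_left]
  rw [h1, Q_or _ x, Q_diag _ _ x, Finset.sum_singleton, Q_box (by omega) (by omega)
    (fun i j => C l i j) x]
  · intro i hi
    rw [mem_singleton] at hi
    rw [mem_range]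
    omega
  · rintro i j ⟨h2, h3⟩
    simp only [mem_singleton, Bool.and_eq_true, decide_eq_true_eq] at h2 h3
    omega

theorem ev10 (hm : 1 ≤ m) (hn : 6 * m + 1 ≤ n) :
    Q n (A0 m z C (6 * m)) x = ∑ i ∈ range m, zb (x (4 * m + i)) * zb (x (5 * m + i)) := by
  have h1 : A0 m z C (6 * m) = fun i j => (decide (4 * m ≤ i ∧ i < 4 * m + m) &&
      decide (5 * m ≤ j ∧ j < 5 * m + m)) && decide (i - 4 * m = j - 5 * m) := by
    funext i j
    unfold A0
    rw [if_neg (by omega), if_neg (by omega), if_neg (by omega), if_neg (by omega), if_neg (by omega),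
      if_neg (by omega), if_neg (by omega), if_neg (by omega), if_pos rfl]
  rw [h1, Q_box (by omega) (by omega) (fun i j => decide (i = j)) x]
  refine Finset.sum_congr rfl fun i hi => ?_
  rw [Finset.sum_eq_single i]
  · simp [zb_true]
  · intro j _ hj
    simp [Ne.symm hj, zb_false]
  · intro h
    exact absurd hi h

theorem ev11 {e : ℕ} (he : 6 * m < e) : Q n (A0 m z C e) x = 0 := by
  unfold Q
  refine Finset.sum_eq_zero fun i _ => Finset.sum_eq_zero fun j _ => ?_
  have : A0 m z C e i j = false := by
    unfold A0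
    rw [if_neg (by omega), if_neg (by omega), if_neg (by omega), if_neg (by omega), if_neg (by omega),
      if_neg (by omega), if_neg (by omega), if_neg (by omega), if_neg (by omega)]
  rw [this]
  simp [zb_false]

end eval


/-! ### Solvability -/

/-- the value of the cubic form with the coefficients `C` -/
def cubS (m : ℕ) (C : ℕ → ℕ → ℕ → Bool) (w : ℕ → Bool) : ZMod 2 :=
  ∑ l ∈ range m, zb (w l) * ∑ i ∈ range m, ∑ j ∈ range m, zb (C l i j) * zb (w i) * zb (w j)

/-- an element of the field with two elements as a bit -/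
def ob (a : ZMod 2) : Bool := decide (a = 1)

theorem zb_ob (a : ZMod 2) : zb (ob a) = a := by
  revert a
  decide

theorem add_eq_zero {a b : ZMod 2} : a + b = 0 ↔ a = b := by
  revert a b
  decide

theorem b0_true {m : ℕ} {e : ℕ} (h : e = 2 * m ∨ e = 3 * m ∨ e = 6 * m) : zb (b0 m e) = 1 := by
  unfold b0
  rw [decide_eq_true h, zb_true]

theorem b0_false {m : ℕ} {e : ℕ} (h : ¬ (e = 2 * m ∨ e = 3 * m ∨ e = 6 * m)) : zb (b0 m e) = 0 := by
  unfold b0
  rw [decide_eq_false h, zb_false]

/-- the solution that selects the block `(i0, j0)` -/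
def sol (m : ℕ) (z C : ℕ → ℕ → ℕ → Bool) (i0 j0 v : ℕ) : Bool :=
  if v < m then decide (v = i0)
  else if v < 2 * m then decide (v = m + j0)
  else if v < 3 * m then decide (2 * m + i0 ≤ v)
  else if v < 4 * m then decide (3 * m + j0 ≤ v)
  else if v < 5 * m then z i0 j0 (v - 4 * m)
  else ob (∑ i ∈ range m, ∑ j ∈ range m, zb (C (v - 5 * m) i j) * zb (z i0 j0 i) * zb (z i0 j0 j))

theorem sum_onehot {m i0 j0 : ℕ} (hi : i0 < m) (hj : j0 < m) (f : ℕ → ℕ → ZMod 2) :
    ∑ i ∈ range m, ∑ j ∈ range m, f i j * zb (decide (i = i0)) * zb (decide (j = j0)) = f i0 j0 := by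
  rw [Finset.sum_eq_single i0, Finset.sum_eq_single j0]
  · simp [zb_true]
  · intro j _ h
    simp [h, zb_false]
  · intro h
    exact absurd (mem_range.2 hj) h
  · intro i _ h
    simp [h, zb_false]
  · intro h
    exact absurd (mem_range.2 hi) h

theorem sys_iff {m n : ℕ} (hm : 1 ≤ m) (hn : 6 * m + 1 ≤ n) (z C : ℕ → ℕ → ℕ → Bool) :
    (∃ x : ℕ → Bool, ∀ e < n, Q n (A0 m z C e) x = zb (b0 m e)) ↔
      ∃ i < m, ∃ j < m, cubS m C (z i j) = 1 := by
  constructor
  · rintro ⟨x, hx⟩
    -- the two one-hot vectors
    obtain ⟨i0, hi0, hu⟩ := onehot hm (fun i => x (0 + i)) (fun i => x (2 * m + i))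
      (by
        have := hx 0 (by omega)
        rw [ev0 z C x hm hn, b0_false (by omega)] at this
        simpa using this)
      (fun i hi => by
        have := hx (i + 1) (by omega)
        rw [ev1 z C x hn hi, b0_false (by omega)] at this
        exact this)
      (fun i hi => by
        have := hx (2 * m + (i + 1)) (by omega)
        rw [ev5 z C x hn hi, b0_false (by omega)] at this
        exact this)
      (by
        have := hx (2 * m) (by omega)
        rw [ev4 z C x hm hn, b0_true (by omega)] at this
        exact this)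
    obtain ⟨j0, hj0, hv⟩ := onehot hm (fun i => x (m + i)) (fun i => x (3 * m + i))
      (by
        have := hx m (by omega)
        rw [ev2 z C x hm hn, b0_false (by omega)] at this
        simpa using this)
      (fun i hi => by
        have := hx (m + (i + 1)) (by omega)
        rw [ev3 z C x hn hi, b0_false (by omega)] at this
        exact this)
      (fun i hi => by
        have := hx (3 * m + (i + 1)) (by omega)
        rw [ev7 z C x hn hi, b0_false (by omega)] at this
        exact this)
      (by
        have := hx (3 * m) (by omega)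
        rw [ev6 z C x hm hn, b0_true (by omega)] at this
        exact this)
    have hw : ∀ l < m, x (4 * m + l) = z i0 j0 l := by
      intro l hl
      have := hx (4 * m + l) (by omega)
      rw [ev8 z C x hn hl, b0_false (by omega)] at this
      rw [Finset.sum_congr rfl fun i hi => Finset.sum_congr rfl fun j hj => by
        rw [show x (0 + i) = decide (i = i0) from hu i (mem_range.1 hi),
          show x (m + j) = decide (j = j0) from hv j (mem_range.1 hj)]] at this
      rw [sum_onehot hi0 hj0 (fun i j => zb (z i j l)), add_eq_zero] at this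
      exact zb_inj.1 this
    have ht : ∀ l < m, zb (x (5 * m + l)) =
        ∑ i ∈ range m, ∑ j ∈ range m, zb (C l i j) * zb (z i0 j0 i) * zb (z i0 j0 j) := by
      intro l hl
      have := hx (5 * m + l) (by omega)
      rw [ev9 z C x hn hl, b0_false (by omega), add_eq_zero] at this
      rw [this]
      refine Finset.sum_congr rfl fun i hi => Finset.sum_congr rfl fun j hj => ?_
      rw [hw i (mem_range.1 hi), hw j (mem_range.1 hj)]
    refine ⟨i0, hi0, j0, hj0, ?_⟩
    have := hx (6 * m) (by omega)
    rw [ev10 z C x hm hn, b0_true (by omega)] at this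
    unfold cubS
    rw [← this]
    refine Finset.sum_congr rfl fun l hl => ?_
    rw [hw l (mem_range.1 hl), ht l (mem_range.1 hl)]
  · rintro ⟨i0, hi0, j0, hj0, hc⟩
    refine ⟨sol m z C i0 j0, fun e he => ?_⟩
    set x := sol m z C i0 j0 with hx
    have x0 : ∀ v < m, x v = decide (v = i0) := fun v h => by
      rw [hx]; unfold sol; rw [if_pos h]
    have x1 : ∀ v < m, x (m + v) = decide (v = j0) := fun v h => by
      rw [hx]; unfold sol
      rw [if_neg (by omega), if_pos (by omega)]
      congr 1
      simp
    have x2 : ∀ v < m, x (2 * m + v) = decide (i0 ≤ v) := fun v h => by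
      rw [hx]; unfold sol
      rw [if_neg (by omega), if_neg (by omega), if_pos (by omega)]
      congr 1
      simp
    have x3 : ∀ v < m, x (3 * m + v) = decide (j0 ≤ v) := fun v h => by
      rw [hx]; unfold sol
      rw [if_neg (by omega), if_neg (by omega), if_neg (by omega), if_pos (by omega)]
      congr 1
      simp
    have x4 : ∀ v < m, x (4 * m + v) = z i0 j0 v := fun v h => by
      rw [hx]; unfold sol
      rw [if_neg (by omega), if_neg (by omega), if_neg (by omega), if_neg (by omega), if_pos (by omega),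
        Nat.add_sub_cancel_left]
    have x5 : ∀ v < m, zb (x (5 * m + v)) =
        ∑ i ∈ range m, ∑ j ∈ range m, zb (C v i j) * zb (z i0 j0 i) * zb (z i0 j0 j) := fun v h => by
      rw [hx]; unfold sol
      rw [if_neg (by omega), if_neg (by omega), if_neg (by omega), if_neg (by omega), if_neg (by omega),
        zb_ob, Nat.add_sub_cancel_left]
    have step : ∀ (k e : ℕ), zb (decide (k ≤ e + 1)) + zb (decide (k ≤ e)) + zb (decide (e + 1 = k)) = 0 := by
      intro k e
      rcases Nat.lt_trichotomy k (e + 1) with h | h | h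
      · rw [decide_eq_true (by omega), decide_eq_true (by omega), decide_eq_false (by omega)]
        decide
      · rw [decide_eq_true (by omega), decide_eq_false (by omega), decide_eq_true (by omega)]
        decide
      · rw [decide_eq_false (by omega), decide_eq_false (by omega), decide_eq_false (by omega)]
        decide
    have step0 : ∀ k : ℕ, zb (decide (k ≤ 0)) + zb (decide (0 = k)) = 0 := by
      intro k
      rcases Nat.eq_zero_or_pos k with h | h
      · rw [decide_eq_true (by omega), decide_eq_true (by omega)]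
        decide
      · rw [decide_eq_false (by omega), decide_eq_false (by omega)]
        decide
    have stepm : ∀ k e : ℕ, zb (decide (e + 1 = k)) * zb (decide (k ≤ e)) = 0 := by
      intro k e
      by_cases h : e + 1 = k
      · rw [decide_eq_false (show ¬ k ≤ e by omega), zb_false, mul_zero]
      · rw [decide_eq_false h, zb_false, zero_mul]
    rcases Nat.lt_or_ge e m with h1 | h1
    · rw [b0_false (by omega)]
      rcases Nat.eq_zero_or_pos e with rfl | h2
      · rw [ev0 z C x hm hn, x0 0 hm, show 2 * m = 2 * m + 0 from rfl, x2 0 hm]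
        exact step0 i0
      · obtain ⟨e, rfl⟩ : ∃ e', e = e' + 1 := ⟨e - 1, by omega⟩
        rw [ev1 z C x hn h1, x2 _ h1, x2 e (by omega), zero_add, x0 _ h1]
        exact step i0 e
    rcases Nat.lt_or_ge e (2 * m) with h2 | h2
    · rw [b0_false (by omega)]
      obtain ⟨e, rfl⟩ : ∃ e', e = m + e' := ⟨e - m, by omega⟩
      rcases Nat.eq_zero_or_pos e with rfl | h3
      · rw [add_zero, ev2 z C x hm hn]
        have e1 := x1 0 hm
        have e2 := x3 0 hm
        rw [add_zero] at e1 e2
        rw [e1, e2]
        exact step0 j0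
      · obtain ⟨e, rfl⟩ : ∃ e', e = e' + 1 := ⟨e - 1, by omega⟩
        rw [ev3 z C x hn (by omega), x3 _ (by omega), x3 e (by omega), x1 _ (by omega)]
        exact step j0 e
    rcases Nat.lt_or_ge e (3 * m) with h3 | h3
    · obtain ⟨e, rfl⟩ : ∃ e', e = 2 * m + e' := ⟨e - 2 * m, by omega⟩
      rcases Nat.eq_zero_or_pos e with rfl | h4
      · rw [add_zero, ev4 z C x hm hn, b0_true (by omega), x2 _ (by omega), decide_eq_true (by omega),
          zb_true]
      · obtain ⟨e, rfl⟩ : ∃ e', e = e' + 1 := ⟨e - 1, by omega⟩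
        rw [ev5 z C x hn (by omega), b0_false (by omega), zero_add, x0 _ (by omega), x2 e (by omega)]
        exact stepm i0 e
    rcases Nat.lt_or_ge e (4 * m) with h4 | h4
    · obtain ⟨e, rfl⟩ : ∃ e', e = 3 * m + e' := ⟨e - 3 * m, by omega⟩
      rcases Nat.eq_zero_or_pos e with rfl | h5
      · rw [add_zero, ev6 z C x hm hn, b0_true (by omega), x3 _ (by omega), decide_eq_true (by omega),
          zb_true]
      · obtain ⟨e, rfl⟩ : ∃ e', e = e' + 1 := ⟨e - 1, by omega⟩
        rw [ev7 z C x hn (by omega), b0_false (by omega), x1 _ (by omega), x3 e (by omega)]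
        exact stepm j0 e
    rcases Nat.lt_or_ge e (5 * m) with h5 | h5
    · obtain ⟨l, rfl⟩ : ∃ e', e = 4 * m + e' := ⟨e - 4 * m, by omega⟩
      rw [ev8 z C x hn (by omega), b0_false (by omega), x4 _ (by omega)]
      rw [Finset.sum_congr rfl fun i hi => Finset.sum_congr rfl fun j hj => by
        rw [zero_add, x0 i (mem_range.1 hi), x1 j (mem_range.1 hj)]]
      rw [sum_onehot hi0 hj0 (fun i j => zb (z i j l)), add_eq_zero]
    rcases Nat.lt_or_ge e (6 * m) with h6 | h6
    · obtain ⟨l, rfl⟩ : ∃ e', e = 5 * m + e' := ⟨e - 5 * m, by omega⟩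
      rw [ev9 z C x hn (by omega), b0_false (by omega), add_eq_zero, x5 _ (by omega)]
      refine Finset.sum_congr rfl fun i hi => Finset.sum_congr rfl fun j hj => ?_
      rw [x4 i (mem_range.1 hi), x4 j (mem_range.1 hj)]
    rcases Nat.eq_or_lt_of_le h6 with h7 | h7
    · subst h7
      rw [ev10 z C x hm hn, b0_true (by omega), ← hc]
      unfold cubS
      refine Finset.sum_congr rfl fun l hl => ?_
      rw [x4 l (mem_range.1 hl), x5 l (mem_range.1 hl)]
    · rw [ev11 z C x h7, b0_false (by omega)]

end Pool.Agent.KMQ
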