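import Pool.Agent.KMQ.Sys2
import Pool.Agent.KMQ.Bridge

/-! The words of the systems of quadratic equations for a quadratic map. -/

namespace Pool.Agent.KMQ

open Finset Pool.Agent.KE Pool.Agent.KH

/-- the coordinates of a quadratic map over the field with two elements -/
def hq {n r : ℕ} (C : Fin r → Fin n × Fin n → Bool) (x : Fin n → Bool) (l : Fin r) : Bool :=
  decide (∑ t : Fin n × Fin n, zb (C l t && (x t.1 && x t.2)) = 1)

/-- the size of the blocks -/
def bs2 (N : ℕ) : ℕ := (dim N - 1) / 7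

theorem bs2_spec {N : ℕ} (h : 1 ≤ bs2 N) : 7 * bs2 N + 1 ≤ dim N := by
  unfold bs2 at *
  omega

theorem block2_lt {N : ℕ} {b l : ℕ} (hb : b < bs2 N * bs2 N) (hl : l < bs2 N) :
    ((4 * bs2 N + l) * dim N + b / bs2 N) * dim N + (bs2 N + b % bs2 N) < dim N ^ 3 := by
  have hm : 1 ≤ bs2 N := by omega
  have h1 := bs2_spec hm
  have h2 : b / bs2 N < bs2 N := Nat.div_lt_of_lt_mul hb
  have h3 : b % bs2 N < bs2 N := Nat.mod_lt _ hm
  exact pos_lt3 (by omega) (by omega) (by omega)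

/-- the position of letter `l` of the block `b` -/
def bpos2 (N : ℕ) (b : Fin (bs2 N * bs2 N)) (l : Fin (bs2 N)) : Fin N :=
  ⟨((4 * bs2 N + l) * dim N + (b : ℕ) / bs2 N) * dim N + (bs2 N + (b : ℕ) % bs2 N), by
    have := block2_lt (N := N) b.2 l.2
    have := dim_spec N
    omega⟩

theorem bpos2_inj (N : ℕ) {b b' : Fin (bs2 N * bs2 N)} {l l' : Fin (bs2 N)}
    (h : bpos2 N b l = bpos2 N b' l') : b = b' ∧ l = l' := by
  have h1 := congrArg Fin.val h
  simp only [bpos2] at h1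
  have hl := l.2
  have hm : 1 ≤ bs2 N := by omega
  have h0 := bs2_spec hm
  have h2 : (b : ℕ) / bs2 N < bs2 N := Nat.div_lt_of_lt_mul b.2
  have h3 : (b : ℕ) % bs2 N < bs2 N := Nat.mod_lt _ hm
  have h2' : (b' : ℕ) / bs2 N < bs2 N := Nat.div_lt_of_lt_mul b'.2
  have h3' : (b' : ℕ) % bs2 N < bs2 N := Nat.mod_lt _ hm
  obtain ⟨e1, e2, e3⟩ := split3 (n := dim N) (e := 4 * bs2 N + l) (i := (b : ℕ) / bs2 N)
    (j := bs2 N + (b : ℕ) % bs2 N) (by omega) (by omega)
  obtain ⟨f1, f2, f3⟩ := split3 (n := dim N) (e := 4 * bs2 N + l') (i := (b' : ℕ) / bs2 N)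
    (j := bs2 N + (b' : ℕ) % bs2 N) (by omega) (by omega)
  rw [h1] at e1 e2 e3
  have g1 : (l : ℕ) = l' := by omega
  have g2 : (b : ℕ) / bs2 N = b' / bs2 N := by omega
  have g3 : (b : ℕ) % bs2 N = b' % bs2 N := by omega
  refine ⟨Fin.ext ?_, Fin.ext g1⟩
  rw [← Nat.div_add_mod (b : ℕ) (bs2 N), ← Nat.div_add_mod (b' : ℕ) (bs2 N), g2, g3]

/-- the coefficients as a function on numbers -/
def extM {m r : ℕ} (C : Fin r → Fin m × Fin m → Bool) (l i j : ℕ) : Bool :=
  if h : l < r ∧ i < m ∧ j < m then C ⟨l, h.1⟩ (⟨i, h.2.1⟩, ⟨j, h.2.2⟩) else false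

/-- the values as a function on numbers -/
def sT {m r : ℕ} (t : Fin (m * m) → Fin r → Bool) (i j l : ℕ) : Bool :=
  if h : i * m + j < m * m ∧ l < r then t ⟨i * m + j, h.1⟩ ⟨l, h.2⟩ else false

/-- the word of the system with the coefficients `C` and the values `t`, without blocks -/
def base2 (N : ℕ) {r : ℕ} (C : Fin r → Fin (bs2 N) × Fin (bs2 N) → Bool)
    (t : Fin (bs2 N * bs2 N) → Fin r → Bool) (p : Fin N) : Bool :=
  if (p : ℕ) < dim N ^ 3 then
    A1 (bs2 N) (fun _ _ _ => false) (extM C) (sT t) ((p : ℕ) / dim N / dim N)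
      ((p : ℕ) / dim N % dim N) ((p : ℕ) % dim N)
  else b0 (bs2 N) ((p : ℕ) - dim N ^ 3)

theorem A1_off {m : ℕ} {z z' C s : ℕ → ℕ → ℕ → Bool} {e i j : ℕ}
    (h : ¬ (4 * m ≤ e ∧ e < 5 * m ∧ i < m ∧ m ≤ j ∧ j < 2 * m)) :
    A1 m z C s e i j = A1 m z' C s e i j := by
  unfold A1
  by_cases h1 : e < 5 * m
  · rw [if_pos h1, if_pos h1]
    exact A0_off h
  · rw [if_neg h1, if_neg h1]

theorem getD_wd2 (N : ℕ) {r : ℕ} (C : Fin r → Fin (bs2 N) × Fin (bs2 N) → Bool)
    (t : Fin (bs2 N * bs2 N) → Fin r → Bool) (X : Fin (bs2 N * bs2 N) → Fin (bs2 N) → Bool)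
    (hm : 1 ≤ bs2 N) {e i j : ℕ} (he : e < dim N) (hi : i < dim N) (hj : j < dim N) :
    (List.ofFn (wd (bpos2 N) (base2 N C t) X)).getD ((e * dim N + i) * dim N + j) false =
      A1 (bs2 N) (zX X) (extM C) (sT t) e i j := by
  have h1 := pos_lt3 he hi hj
  have h2 := dim_spec N
  have h3 : (e * dim N + i) * dim N + j < N := by omega
  rw [List.getD_eq_getElem _ _ (by simpa using h3), List.getElem_ofFn]
  by_cases hb : 4 * bs2 N ≤ e ∧ e < 5 * bs2 N ∧ i < bs2 N ∧ bs2 N ≤ j ∧ j < 2 * bs2 N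
  · obtain ⟨l, rfl⟩ : ∃ l, e = 4 * bs2 N + l := ⟨e - 4 * bs2 N, by omega⟩
    obtain ⟨j', rfl⟩ : ∃ j', j = bs2 N + j' := ⟨j - bs2 N, by omega⟩
    have hl : l < bs2 N := by omega
    have hj' : j' < bs2 N := by omega
    have hij : i * bs2 N + j' < bs2 N * bs2 N := by
      calc i * bs2 N + j' < i * bs2 N + bs2 N := by omega
        _ = (i + 1) * bs2 N := by ring
        _ ≤ _ := Nat.mul_le_mul_right _ hb.2.2.1
    have e1 : (i * bs2 N + j') / bs2 N = i := by
      rw [mul_comm, Nat.mul_add_div (by omega), Nat.div_eq_of_lt hj', add_zero]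
    have e2 : (i * bs2 N + j') % bs2 N = j' := by
      rw [mul_comm, Nat.mul_add_mod, Nat.mod_eq_of_lt hj']
    rw [A1_low _ _ _ hb.2.1, A0_on hl hb.2.2.1 hj']
    have h4 : (⟨((4 * bs2 N + l) * dim N + i) * dim N + (bs2 N + j'), h3⟩ : Fin N) =
        bpos2 N ⟨i * bs2 N + j', hij⟩ ⟨l, hl⟩ := by
      refine Fin.ext ?_
      simp only [bpos2]
      rw [e1, e2]
    rw [h4, wd_pos (fun b b' l l' h => bpos2_inj N h)]
    unfold zX
    rw [dif_pos ⟨hij, hl⟩]
  · rw [wd_off]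
    · unfold base2
      rw [if_pos h1]
      obtain ⟨f1, f2, f3⟩ := split3 (n := dim N) (e := e) hi hj
      simp only [f1, f2, f3]
      exact A1_off hb
    · intro b l h
      have h4 := congrArg Fin.val h
      simp only [bpos2] at h4
      have hb2 : (b : ℕ) / bs2 N < bs2 N := Nat.div_lt_of_lt_mul b.2
      have hb3 : (b : ℕ) % bs2 N < bs2 N := Nat.mod_lt _ hm
      have h0 := bs2_spec hm
      have hl := l.2
      obtain ⟨e1, e2, e3⟩ := split3 (n := dim N) (e := 4 * bs2 N + l) (i := (b : ℕ) / bs2 N)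
        (j := bs2 N + (b : ℕ) % bs2 N) (by omega) (by omega)
      obtain ⟨f1, f2, f3⟩ := split3 (n := dim N) (e := e) hi hj
      rw [h4] at e1 e2 e3
      exact hb (by omega)

theorem getD_wd2_rhs (N : ℕ) {r : ℕ} (C : Fin r → Fin (bs2 N) × Fin (bs2 N) → Bool)
    (t : Fin (bs2 N * bs2 N) → Fin r → Bool) (X : Fin (bs2 N * bs2 N) → Fin (bs2 N) → Bool)
    {e : ℕ} (he : e < dim N) :
    (List.ofFn (wd (bpos2 N) (base2 N C t) X)).getD (dim N ^ 3 + e) false = b0 (bs2 N) e := by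
  have h2 := dim_spec N
  have h3 : dim N ^ 3 + e < N := by omega
  rw [List.getD_eq_getElem _ _ (by simpa using h3), List.getElem_ofFn, wd_off]
  · unfold base2
    rw [if_neg (by simp)]
    simp
  · intro b l h
    have h4 := congrArg Fin.val h
    have h5 := block2_lt (N := N) b.2 l.2
    simp only [bpos2] at h4
    omega

theorem quaS_hq {m r : ℕ} (C : Fin r → Fin m × Fin m → Bool) (x : Fin m → Bool) (w : ℕ → Bool)
    (hw : ∀ i : Fin m, w i = x i) (l : Fin r) (v : Bool) :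
    quaS m (extM C) l w + zb v = 1 ↔ hq C x l ≠ v := by
  have h1 : quaS m (extM C) l w = ∑ t : Fin m × Fin m, zb (C l t && (x t.1 && x t.2)) := by
    unfold quaS
    rw [Fintype.sum_prod_type, Finset.sum_range]
    refine Finset.sum_congr rfl fun i _ => ?_
    rw [Finset.sum_range]
    refine Finset.sum_congr rfl fun j _ => ?_
    have : extM C l i j = C l (i, j) := by
      unfold extM
      rw [dif_pos ⟨l.2, i.2, j.2⟩]
    rw [this, hw, hw, zb_and, zb_and]
    ring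
  rw [h1]
  unfold hq
  generalize ∑ t : Fin m × Fin m, zb (C l t && (x t.1 && x t.2)) = a
  revert a v
  decide

theorem quaS_zero {m r : ℕ} (C : Fin r → Fin m × Fin m → Bool) (w : ℕ → Bool) {l : ℕ} (hl : r ≤ l) :
    quaS m (extM C) l w = 0 := by
  unfold quaS
  refine Finset.sum_eq_zero fun i _ => Finset.sum_eq_zero fun j _ => ?_
  have : extM C l i j = false := by
    unfold extM
    rw [dif_neg (by omega)]
  rw [this, zb_false, zero_mul, zero_mul]

/-- **The system with the blocks `X` and the values `t` has no solution if and only if the quadratic map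
has at every block the prescribed value.** -/
theorem mq2_iff {N r : ℕ} (hm : 1 ≤ bs2 N) (hr : r ≤ bs2 N)
    (C : Fin r → Fin (bs2 N) × Fin (bs2 N) → Bool) (t : Fin (bs2 N * bs2 N) → Fin r → Bool)
    (X : Fin (bs2 N * bs2 N) → Fin (bs2 N) → Bool) :
    ¬ MQ (List.ofFn (wd (bpos2 N) (base2 N C t) X)) ↔ ∀ b, hq C (X b) = t b := by
  have h0 := bs2_spec hm
  have h1 : MQ (List.ofFn (wd (bpos2 N) (base2 N C t) X)) ↔
      ∃ x : ℕ → Bool, ∀ e < dim N,
        Q (dim N) (A1 (bs2 N) (zX X) (extM C) (sT t) e) x = zb (b0 (bs2 N) e) := by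
    unfold MQ
    rw [List.length_ofFn]
    refine exists_congr fun x => forall_congr' fun e => forall_congr' fun he => ?_
    rw [getD_wd2_rhs N C t X he]
    unfold Q
    rw [Finset.sum_congr rfl fun i hi => Finset.sum_congr rfl fun j hj => by
      rw [getD_wd2 N C t X hm he (mem_range.1 hi) (mem_range.1 hj)]]
  rw [h1, sys2_iff hm h0]
  constructor
  · intro h b
    funext l
    by_contra hb
    have e1 : (b : ℕ) / bs2 N * bs2 N + (b : ℕ) % bs2 N = b := by
      rw [mul_comm]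
      exact Nat.div_add_mod _ _
    have e2 : (⟨(b : ℕ) / bs2 N * bs2 N + (b : ℕ) % bs2 N, by rw [e1]; exact b.2⟩ :
        Fin (bs2 N * bs2 N)) = b := Fin.ext e1
    refine h ⟨(b : ℕ) / bs2 N, Nat.div_lt_of_lt_mul b.2, (b : ℕ) % bs2 N, Nat.mod_lt _ hm, l,
      lt_of_lt_of_le l.2 hr, ?_⟩
    have e3 : sT t ((b : ℕ) / bs2 N) ((b : ℕ) % bs2 N) l = t b l := by
      unfold sT
      rw [dif_pos ⟨by rw [e1]; exact b.2, l.2⟩, e2]
    rw [e3]
    refine (quaS_hq C (X b) _ (fun i => ?_) l (t b l)).2 hb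
    unfold zX
    rw [dif_pos ⟨by rw [e1]; exact b.2, i.2⟩, e2]
  · rintro h ⟨i, hi, j, hj, l, hl, hc⟩
    have hij : i * bs2 N + j < bs2 N * bs2 N := by
      calc i * bs2 N + j < i * bs2 N + bs2 N := by omega
        _ = (i + 1) * bs2 N := by ring
        _ ≤ _ := Nat.mul_le_mul_right _ hi
    by_cases hlr : l < r
    · have e3 : sT t i j l = t ⟨i * bs2 N + j, hij⟩ ⟨l, hlr⟩ := by
        unfold sT
        rw [dif_pos ⟨hij, hlr⟩]
      rw [e3] at hc
      have := (quaS_hq C (X ⟨i * bs2 N + j, hij⟩) _ (fun l => by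
        unfold zX
        rw [dif_pos ⟨hij, l.2⟩]) ⟨l, hlr⟩ _).1 hc
      exact this (congrFun (h _) _)
    · rw [quaS_zero C _ (not_lt.1 hlr)] at hc
      unfold sT at hc
      rw [dif_neg (fun h => hlr h.2), zb_false, add_zero] at hc
      exact absurd hc (by decide)

end Pool.Agent.KMQ
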