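import Pool.Agent.KE.ExpAlg

/-! Systems of quadratic equations over the field with two elements, with dense coefficients. -/

namespace Pool.Agent.KMQ

open Pool.Agent.KE

/-- the largest `n` with `n ^ 3 + n ≤ N` -/
def dim (N : ℕ) : ℕ := Nat.findGreatest (fun n => n ^ 3 + n ≤ N) N

/-- **Quadratic equations.** A word of length `N` consists, with the largest `n` such that
`n ^ 3 + n ≤ N`, of the coefficients of `n` quadratic forms in `n` variables over the field with two
elements (the coefficient of `x i * x j` in the form `e` is letter `(e * n + i) * n + j`), of `n` right
hand sides (letter `n ^ 3 + e`) and of unused letters; it is in the language if the system of the `n`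
equations has a solution. -/
def MQ (y : List Bool) : Prop :=
  ∃ x : ℕ → Bool, ∀ e < dim y.length,
    ∑ i ∈ Finset.range (dim y.length), ∑ j ∈ Finset.range (dim y.length),
      zb (y.getD ((e * dim y.length + i) * dim y.length + j) false) * zb (x i) * zb (x j) =
    zb (y.getD (dim y.length ^ 3 + e) false)

end Pool.Agent.KMQ
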