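import Pool.Agent.KMQ.Sys

/-! Iterated quadratic maps: a map with `m ^ 2` blocks of `m` free coefficients whose iterates compute a
given cubic form, or a given test of a quadratic map, of the sum of the blocks. -/

namespace Pool.Agent.KMQ

open Finset Pool.Agent.KE

/-- one step of the quadratic map in dimension `n` with the coefficients `A` -/
def qmap (n : ℕ) (A : ℕ → Bool) (x : ℕ → Bool) (e : ℕ) : Bool :=
  decide (∑ i ∈ range n, ∑ j ∈ range n, zb (A ((e * n + i) * n + j)) * zb (x i) * zb (x j) = 1)

/-- **Iterated quadratic maps.** A word of length `N` contains, with the largest `n` such that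
`n ^ 3 + n ≤ N`, the coefficients of a quadratic map of the space of dimension `n` over the field with
two elements to itself (the coefficient of `x i * x j` in coordinate `e` is letter
`(e * n + i) * n + j`); it is in the language if the last coordinate is one after the map has been
applied `t n` times to the first unit vector. -/
def It (t : ℕ → ℕ) (y : List Bool) : Prop :=
  ((qmap (dim y.length) fun p => y.getD p false)^[t (dim y.length)] fun i => decide (i = 0))
    (dim y.length - 1) = true

/-- a map with triangular coefficients becomes stationary -/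
theorem iter_eq {n : ℕ} {A : ℕ → Bool} {P : ℕ → ℕ → ℕ → Bool}
    (hA : ∀ e < n, ∀ i < n, ∀ j < n, A ((e * n + i) * n + j) = P e i j) {v : ℕ → Bool}
    (h0 : v 0 = true)
    (hP : ∀ e i j, P e i j = true → (i < e ∧ j < e) ∨ (e = 0 ∧ i = 0 ∧ j = 0))
    (hv : ∀ e < n, Q n (P e) v = zb (v e)) :
    ∀ t e, e ≤ t → e < n → ((qmap n A)^[t] fun i => decide (i = 0)) e = v e := by
  intro t
  induction t with
  | zero =>
    intro e he _
    obtain rfl : e = 0 := by omega
    rw [h0]
    rfl
  | succ t ih =>
    intro e he hen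
    rw [Function.iterate_succ_apply']
    obtain ⟨x, hx⟩ : ∃ x, x = (qmap n A)^[t] fun i => decide (i = 0) := ⟨_, rfl⟩
    rw [← hx] at ih ⊢
    have h1 : ∑ i ∈ range n, ∑ j ∈ range n, zb (A ((e * n + i) * n + j)) * zb (x i) * zb (x j) =
        Q n (P e) v := by
      unfold Q
      refine Finset.sum_congr rfl fun i hi => Finset.sum_congr rfl fun j hj => ?_
      rw [hA e hen i (mem_range.1 hi) j (mem_range.1 hj)]
      by_cases hc : P e i j = true
      · have h2 : i ≤ t ∧ j ≤ t := by
          rcases hP e i j hc with h | h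
          · omega
          · omega
        rw [ih i h2.1 (mem_range.1 hi), ih j h2.2 (mem_range.1 hj)]
      · rw [Bool.not_eq_true] at hc
        rw [hc, zb_false, zero_mul, zero_mul, zero_mul, zero_mul]
    unfold qmap
    rw [h1, hv e hen]
    cases v e <;> decide

/-- the coefficients of the map; `z` are the blocks, `C` and `k` are the coefficients of a quadratic
map, `o` selects the cubic form -/
def AI (m n : ℕ) (z C : ℕ → ℕ → ℕ → Bool) (k : ℕ → Bool) (o : Bool) (e i j : ℕ) : Bool :=
  if e < m + 1 then decide (i = 0) && decide (j = 0)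
  else if e < 2 * m + 1 then
    (decide (1 ≤ i ∧ i < 1 + m) && decide (1 ≤ j ∧ j < 1 + m)) && z (i - 1) (j - 1) (e - (m + 1))
  else if e < 3 * m + 1 then
    (decide (i = 0) && (decide (j = 0) && k (e - (2 * m + 1)))) ||
      ((decide (m + 1 ≤ i ∧ i < m + 1 + m) && decide (m + 1 ≤ j ∧ j < m + 1 + m)) &&
        C (e - (2 * m + 1)) (i - (m + 1)) (j - (m + 1)))
  else if e = 3 * m + 1 then decide (i = 2 * m + 1) && decide (j = 2 * m + 1)
  else if e < 4 * m + 1 then decide (i = e - 1) && decide (j = e - m)
  else if e = n - 1 then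
    if o = true then (decide (m + 1 ≤ i ∧ i < m + 1 + m) && decide (2 * m + 1 ≤ j ∧ j < 2 * m + 1 + m)) &&
      decide (i - (m + 1) = j - (2 * m + 1))
    else decide (i = 4 * m) && decide (j = 4 * m)
  else false

/-- an element of the field with two elements as a bit -/
def wI (m : ℕ) (z : ℕ → ℕ → ℕ → Bool) (l : ℕ) : Bool := ob (∑ i ∈ range m, ∑ j ∈ range m, zb (z i j l))

/-- the values of the quadratic map -/
def tI (m : ℕ) (z C : ℕ → ℕ → ℕ → Bool) (k : ℕ → Bool) (c : ℕ) : Bool :=
  ob (zb (k c) + ∑ i ∈ range m, ∑ j ∈ range m, zb (C c i j) * zb (wI m z i) * zb (wI m z j))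

/-- the conjunctions -/
def gI (m : ℕ) (z C : ℕ → ℕ → ℕ → Bool) (k : ℕ → Bool) : ℕ → Bool
  | 0 => tI m z C k 0
  | c + 1 => gI m z C k c && tI m z C k (c + 1)

/-- the last coordinate -/
def oI (m : ℕ) (z C : ℕ → ℕ → ℕ → Bool) (k : ℕ → Bool) (o : Bool) : Bool :=
  if o = true then ob (∑ i ∈ range m, zb (wI m z i) * zb (tI m z C k i)) else gI m z C k (m - 1)

/-- the limit -/
def VI (m n : ℕ) (z C : ℕ → ℕ → ℕ → Bool) (k : ℕ → Bool) (o : Bool) (e : ℕ) : Bool :=
  if e < m + 1 then true
  else if e < 2 * m + 1 then wI m z (e - (m + 1))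
  else if e < 3 * m + 1 then tI m z C k (e - (2 * m + 1))
  else if e < 4 * m + 1 then gI m z C k (e - (3 * m + 1))
  else if e = n - 1 then oI m z C k o
  else false

section

variable {m n : ℕ} {z C : ℕ → ℕ → ℕ → Bool} {k : ℕ → Bool} {o : Bool}

theorem VI_one {e : ℕ} (h : e < m + 1) : VI m n z C k o e = true := by
  unfold VI
  rw [if_pos h]

theorem VI_w {l : ℕ} (h : l < m) : VI m n z C k o (m + 1 + l) = wI m z l := by
  unfold VI
  rw [if_neg (by omega), if_pos (by omega), Nat.add_sub_cancel_left]

theorem VI_t {l : ℕ} (h : l < m) : VI m n z C k o (2 * m + 1 + l) = tI m z C k l := by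
  unfold VI
  rw [if_neg (by omega), if_neg (by omega), if_pos (by omega), Nat.add_sub_cancel_left]

theorem VI_g {l : ℕ} (h : l < m) : VI m n z C k o (3 * m + 1 + l) = gI m z C k l := by
  unfold VI
  rw [if_neg (by omega), if_neg (by omega), if_neg (by omega), if_pos (by omega),
    Nat.add_sub_cancel_left]

theorem VI_out (h : 4 * m + 2 ≤ n) : VI m n z C k o (n - 1) = oI m z C k o := by
  unfold VI
  rw [if_neg (by omega), if_neg (by omega), if_neg (by omega), if_neg (by omega), if_pos rfl]

theorem AI_tri (hm : 1 ≤ m) (h : 4 * m + 2 ≤ n) (e i j : ℕ) (hA : AI m n z C k o e i j = true) :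
    (i < e ∧ j < e) ∨ (e = 0 ∧ i = 0 ∧ j = 0) := by
  unfold AI at hA
  split_ifs at hA with h1 h2 h3 h4 h5 h6 h7
  · simp only [Bool.and_eq_true, decide_eq_true_eq] at hA
    omega
  · simp only [Bool.and_eq_true, decide_eq_true_eq] at hA
    omega
  · simp only [Bool.and_eq_true, Bool.or_eq_true, decide_eq_true_eq] at hA
    omega
  · simp only [Bool.and_eq_true, decide_eq_true_eq] at hA
    omega
  · simp only [Bool.and_eq_true, decide_eq_true_eq] at hA
    omega
  · simp only [Bool.and_eq_true, decide_eq_true_eq] at hA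
    omega
  · simp only [Bool.and_eq_true, decide_eq_true_eq] at hA
    omega

theorem gI_eq (c : ℕ) : gI m z C k c = decide (∀ c' ≤ c, tI m z C k c' = true) := by
  induction c with
  | zero =>
    show tI m z C k 0 = _
    rw [Bool.eq_iff_iff, decide_eq_true_iff]
    exact ⟨fun h c' hc => by rw [Nat.le_zero.1 hc]; exact h, fun h => h 0 le_rfl⟩
  | succ c ih =>
    show (gI m z C k c && tI m z C k (c + 1)) = _
    rw [ih, Bool.eq_iff_iff, decide_eq_true_iff, Bool.and_eq_true, decide_eq_true_iff]
    constructor
    · rintro ⟨h1, h2⟩ c' hc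
      rcases Nat.lt_or_ge c' (c + 1) with h | h
      · exact h1 c' (by omega)
      · rw [show c' = c + 1 by omega]
        exact h2
    · intro h
      exact ⟨fun c' hc => h c' (by omega), h _ le_rfl⟩

/-- **The limit is a fixed point.** -/
theorem VI_fix (hm : 1 ≤ m) (h : 4 * m + 2 ≤ n) (e : ℕ) (he : e < n) :
    Q n (AI m n z C k o e) (VI m n z C k o) = zb (VI m n z C k o e) := by
  by_cases h1 : e < m + 1
  · have e1 : AI m n z C k o e = fun i j => decide (i = 0) && decide (j = 0) := by
      funext i j
      unfold AI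
      rw [if_pos h1]
    rw [e1, Q_prod (by omega) (by omega), VI_one h1, VI_one (by omega), zb_true, mul_one]
  by_cases h2 : e < 2 * m + 1
  · obtain ⟨l, rfl⟩ : ∃ l, e = m + 1 + l := ⟨e - (m + 1), by omega⟩
    have e1 : AI m n z C k o (m + 1 + l) = fun i j =>
        (decide (1 ≤ i ∧ i < 1 + m) && decide (1 ≤ j ∧ j < 1 + m)) && z (i - 1) (j - 1) l := by
      funext i j
      unfold AI
      rw [if_neg h1, if_pos h2, Nat.add_sub_cancel_left]
    rw [e1, Q_box (m := m) (by omega) (by omega) (fun i j => z i j l), VI_w (by omega)]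
    unfold wI
    rw [zb_ob]
    refine Finset.sum_congr rfl fun i hi => Finset.sum_congr rfl fun j hj => ?_
    rw [VI_one (by have := mem_range.1 hi; omega), VI_one (by have := mem_range.1 hj; omega), zb_true,
      mul_one, mul_one]
  by_cases h3 : e < 3 * m + 1
  · obtain ⟨l, rfl⟩ : ∃ l, e = 2 * m + 1 + l := ⟨e - (2 * m + 1), by omega⟩
    have e1 : AI m n z C k o (2 * m + 1 + l) = fun i j =>
        (decide (i = 0) && (decide (j = 0) && k l)) ||
        ((decide (m + 1 ≤ i ∧ i < m + 1 + m) && decide (m + 1 ≤ j ∧ j < m + 1 + m)) &&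
          C l (i - (m + 1)) (j - (m + 1))) := by
      funext i j
      unfold AI
      rw [if_neg h1, if_neg h2, if_pos h3, Nat.add_sub_cancel_left]
    rw [e1, Q_or, Q_box (m := m) (by omega) (by omega) (fun i j => C l i j), VI_t (by omega)]
    · unfold tI
      rw [zb_ob]
      congr 1
      · have e2 : Q n (fun i j => decide (i = 0) && (decide (j = 0) && k l)) (VI m n z C k o) =
            zb (k l) * Q n (fun i j => decide (i = 0) && decide (j = 0)) (VI m n z C k o) := by
          unfold Q
          rw [Finset.mul_sum]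
          refine Finset.sum_congr rfl fun i _ => ?_
          rw [Finset.mul_sum]
          refine Finset.sum_congr rfl fun j _ => ?_
          rw [zb_and, zb_and, zb_and]
          ring
        rw [e2, Q_prod (by omega) (by omega), VI_one (by omega), zb_true, mul_one, mul_one]
      · refine Finset.sum_congr rfl fun i hi => Finset.sum_congr rfl fun j hj => ?_
        rw [VI_w (mem_range.1 hi), VI_w (mem_range.1 hj)]
    · rintro i j ⟨ha, hb⟩
      simp only [Bool.and_eq_true, decide_eq_true_eq] at ha hb
      omega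
  by_cases h4 : e = 3 * m + 1
  · subst h4
    have e1 : AI m n z C k o (3 * m + 1) = fun i j => decide (i = 2 * m + 1) && decide (j = 2 * m + 1) := by
      funext i j
      unfold AI
      rw [if_neg h1, if_neg h2, if_neg h3, if_pos rfl]
    rw [e1, Q_prod (by omega) (by omega)]
    have e2 : VI m n z C k o (2 * m + 1) = tI m z C k 0 := VI_t (l := 0) (by omega)
    have e3 : VI m n z C k o (3 * m + 1) = gI m z C k 0 := VI_g (l := 0) (by omega)
    rw [e2, e3, zb_sq]
    rfl
  by_cases h5 : e < 4 * m + 1
  · obtain ⟨l, rfl⟩ : ∃ l, e = 3 * m + 1 + (l + 1) := ⟨e - (3 * m + 2), by omega⟩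
    have e1 : AI m n z C k o (3 * m + 1 + (l + 1)) = fun i j =>
        decide (i = 3 * m + 1 + l) && decide (j = 2 * m + 1 + (l + 1)) := by
      funext i j
      unfold AI
      rw [if_neg h1, if_neg h2, if_neg h3, if_neg h4, if_pos h5,
        show 3 * m + 1 + (l + 1) - 1 = 3 * m + 1 + l by omega,
        show 3 * m + 1 + (l + 1) - m = 2 * m + 1 + (l + 1) by omega]
    rw [e1, Q_prod (by omega) (by omega), VI_g (by omega), VI_t (by omega), VI_g (by omega), ← zb_and]
    rfl
  by_cases h6 : e = n - 1
  · subst h6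
    rw [VI_out h]
    unfold oI
    by_cases ho : o = true
    · have e1 : AI m n z C k o (n - 1) = fun i j => (decide (m + 1 ≤ i ∧ i < m + 1 + m) &&
          decide (2 * m + 1 ≤ j ∧ j < 2 * m + 1 + m)) && decide (i - (m + 1) = j - (2 * m + 1)) := by
        funext i j
        unfold AI
        rw [if_neg h1, if_neg h2, if_neg h3, if_neg h4, if_neg h5, if_pos rfl, if_pos ho]
      rw [e1, Q_box (m := m) (by omega) (by omega) (fun i j => decide (i = j)), if_pos ho, zb_ob]
      refine Finset.sum_congr rfl fun i hi => ?_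
      have hi' := mem_range.1 hi
      rw [Finset.sum_eq_single i]
      · rw [decide_eq_true rfl, zb_true, one_mul, VI_w hi', VI_t hi']
      · intro j _ hj
        rw [decide_eq_false (Ne.symm hj), zb_false, zero_mul, zero_mul]
      · intro h'
        exact absurd hi h'
    · have e1 : AI m n z C k o (n - 1) = fun i j => decide (i = 4 * m) && decide (j = 4 * m) := by
        funext i j
        unfold AI
        rw [if_neg h1, if_neg h2, if_neg h3, if_neg h4, if_neg h5, if_pos rfl, if_neg ho]
      have e2 : VI m n z C k o (4 * m) = gI m z C k (m - 1) := by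
        rw [show 4 * m = 3 * m + 1 + (m - 1) by omega, VI_g (by omega)]
      rw [e1, Q_prod (by omega) (by omega), if_neg ho, e2, zb_sq]
  · have e1 : AI m n z C k o e = fun _ _ => false := by
      funext i j
      unfold AI
      rw [if_neg h1, if_neg h2, if_neg h3, if_neg h4, if_neg h5, if_neg h6]
    have e2 : VI m n z C k o e = false := by
      unfold VI
      rw [if_neg h1, if_neg h2, if_neg h3, if_neg h5, if_neg h6]
    rw [e1, e2, zb_false]
    unfold Q
    refine Finset.sum_eq_zero fun i _ => Finset.sum_eq_zero fun j _ => ?_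
    rw [zb_false, zero_mul, zero_mul]

/-- **The iterates.** -/
theorem it_eq (hm : 1 ≤ m) (h : 4 * m + 2 ≤ n) {A : ℕ → Bool}
    (hA : ∀ e < n, ∀ i < n, ∀ j < n, A ((e * n + i) * n + j) = AI m n z C k o e i j) {t : ℕ}
    (ht : n ≤ t + 1) : ((qmap n A)^[t] fun i => decide (i = 0)) (n - 1) = oI m z C k o := by
  rw [iter_eq hA (VI_one (by omega)) (AI_tri hm h) (VI_fix hm h) t (n - 1) (by omega) (by omega),
    VI_out h]

end

end Pool.Agent.KMQ
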