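import Pool.Agent.KMQ.Sys

/-! A system of quadratic equations with `m ^ 2` blocks of free coefficients that is solvable if and
only if a given quadratic map does not have a prescribed value at one of the blocks. -/

namespace Pool.Agent.KMQ

open Finset Pool.Agent.KE

/-- the coefficients; `z` are the blocks, `C` the coefficients of the quadratic map, `s` the
prescribed values -/
def A1 (m : ℕ) (z C s : ℕ → ℕ → ℕ → Bool) (e i j : ℕ) : Bool :=
  if e < 5 * m then A0 m z C e i j
  else if e < 6 * m then ((decide (i = j) && decide (i ∈ ({e} : Finset ℕ))) ||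
    ((decide (4 * m ≤ i ∧ i < 4 * m + m) && decide (4 * m ≤ j ∧ j < 4 * m + m)) &&
      C (e - 5 * m) (i - 4 * m) (j - 4 * m))) ||
    ((decide (0 ≤ i ∧ i < 0 + m) && decide (m ≤ j ∧ j < m + m)) && s (i - 0) (j - m) (e - 5 * m))
  else if e = 6 * m then (decide (6 * m ≤ i ∧ i < 6 * m + m) && decide (5 * m ≤ j ∧ j < 5 * m + m)) &&
    decide (i - 6 * m = j - 5 * m)
  else false

section eval

variable {m n : ℕ} (z C s : ℕ → ℕ → ℕ → Bool) (x : ℕ → Bool)

theorem A1_low {e : ℕ} (he : e < 5 * m) : A1 m z C s e = A0 m z C e := by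
  funext i j
  unfold A1
  rw [if_pos he]

theorem fv9 (hn : 7 * m + 1 ≤ n) {l : ℕ} (hl : l < m) :
    Q n (A1 m z C s (5 * m + l)) x = zb (x (5 * m + l)) +
      ∑ i ∈ range m, ∑ j ∈ range m, zb (C l i j) * zb (x (4 * m + i)) * zb (x (4 * m + j)) +
      ∑ i ∈ range m, ∑ j ∈ range m, zb (s i j l) * zb (x (0 + i)) * zb (x (m + j)) := by
  have h1 : A1 m z C s (5 * m + l) = fun i j =>
      ((decide (i = j) && decide (i ∈ ({5 * m + l} : Finset ℕ))) ||
      ((decide (4 * m ≤ i ∧ i < 4 * m + m) && decide (4 * m ≤ j ∧ j < 4 * m + m)) &&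
        C l (i - 4 * m) (j - 4 * m))) ||
      ((decide (0 ≤ i ∧ i < 0 + m) && decide (m ≤ j ∧ j < m + m)) && s (i - 0) (j - m) l) := by
    funext i j
    unfold A1
    rw [if_neg (by omega), if_pos (by omega), Nat.add_sub_cancel_left]
  rw [h1, Q_or _ x, Q_or _ x, Q_diag _ _ x, Finset.sum_singleton, Q_box (by omega) (by omega)
    (fun i j => C l i j) x, Q_box (by omega) (by omega) (fun i j => s i j l) x]
  · intro i hi
    rw [mem_singleton] at hi
    rw [mem_range]
    omega
  · rintro i j ⟨h2, h3⟩
    simp only [mem_singleton, Bool.and_eq_true, decide_eq_true_eq] at h2 h3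
    omega
  · rintro i j ⟨h2, h3⟩
    simp only [mem_singleton, Bool.and_eq_true, Bool.or_eq_true, decide_eq_true_eq] at h2 h3
    omega

theorem fv10 (hm : 1 ≤ m) (hn : 7 * m + 1 ≤ n) :
    Q n (A1 m z C s (6 * m)) x = ∑ i ∈ range m, zb (x (6 * m + i)) * zb (x (5 * m + i)) := by
  have h1 : A1 m z C s (6 * m) = fun i j => (decide (6 * m ≤ i ∧ i < 6 * m + m) &&
      decide (5 * m ≤ j ∧ j < 5 * m + m)) && decide (i - 6 * m = j - 5 * m) := by
    funext i j
    unfold A1
    rw [if_neg (by omega), if_neg (by omega), if_pos rfl]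
  rw [h1, Q_box (by omega) (by omega) (fun i j => decide (i = j)) x]
  refine Finset.sum_congr rfl fun i hi => ?_
  rw [Finset.sum_eq_single i]
  · simp [zb_true]
  · intro j _ hj
    simp [Ne.symm hj, zb_false]
  · intro h
    exact absurd hi h

theorem fv11 {e : ℕ} (he : 6 * m < e) : Q n (A1 m z C s e) x = 0 := by
  unfold Q
  refine Finset.sum_eq_zero fun i _ => Finset.sum_eq_zero fun j _ => ?_
  have : A1 m z C s e i j = false := by
    unfold A1
    rw [if_neg (by omega), if_neg (by omega), if_neg (by omega)]
  rw [this]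
  simp [zb_false]

end eval

/-- the value of coordinate `l` of the quadratic map -/
def quaS (m : ℕ) (C : ℕ → ℕ → ℕ → Bool) (l : ℕ) (w : ℕ → Bool) : ZMod 2 :=
  ∑ i ∈ range m, ∑ j ∈ range m, zb (C l i j) * zb (w i) * zb (w j)

/-- the solution that selects the block `(i0, j0)` and the coordinate `l0` -/
def sol2 (m : ℕ) (z C s : ℕ → ℕ → ℕ → Bool) (i0 j0 l0 v : ℕ) : Bool :=
  if v < m then decide (v = i0)
  else if v < 2 * m then decide (v = m + j0)
  else if v < 3 * m then decide (2 * m + i0 ≤ v)
  else if v < 4 * m then decide (3 * m + j0 ≤ v)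
  else if v < 5 * m then z i0 j0 (v - 4 * m)
  else if v < 6 * m then ob (quaS m C (v - 5 * m) (z i0 j0) + zb (s i0 j0 (v - 5 * m)))
  else decide (v = 6 * m + l0)

theorem sys2_iff {m n : ℕ} (hm : 1 ≤ m) (hn : 7 * m + 1 ≤ n) (z C s : ℕ → ℕ → ℕ → Bool) :
    (∃ x : ℕ → Bool, ∀ e < n, Q n (A1 m z C s e) x = zb (b0 m e)) ↔
      ∃ i < m, ∃ j < m, ∃ l < m, quaS m C l (z i j) + zb (s i j l) = 1 := by
  have hn' : 6 * m + 1 ≤ n := by omega
  constructor
  · rintro ⟨x, hx⟩
    have hx0 : ∀ e < 5 * m, Q n (A0 m z C e) x = zb (b0 m e) := by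
      intro e he
      rw [← A1_low z C s he]
      exact hx e (by omega)
    obtain ⟨i0, hi0, hu⟩ := onehot hm (fun i => x (0 + i)) (fun i => x (2 * m + i))
      (by
        have := hx0 0 (by omega)
        rw [ev0 z C x hm hn', b0_false (by omega)] at this
        simpa using this)
      (fun i hi => by
        have := hx0 (i + 1) (by omega)
        rw [ev1 z C x hn' hi, b0_false (by omega)] at this
        exact this)
      (fun i hi => by
        have := hx0 (2 * m + (i + 1)) (by omega)
        rw [ev5 z C x hn' hi, b0_false (by omega)] at this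
        exact this)
      (by
        have := hx0 (2 * m) (by omega)
        rw [ev4 z C x hm hn', b0_true (by omega)] at this
        exact this)
    obtain ⟨j0, hj0, hv⟩ := onehot hm (fun i => x (m + i)) (fun i => x (3 * m + i))
      (by
        have := hx0 m (by omega)
        rw [ev2 z C x hm hn', b0_false (by omega)] at this
        simpa using this)
      (fun i hi => by
        have := hx0 (m + (i + 1)) (by omega)
        rw [ev3 z C x hn' hi, b0_false (by omega)] at this
        exact this)
      (fun i hi => by
        have := hx0 (3 * m + (i + 1)) (by omega)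
        rw [ev7 z C x hn' hi, b0_false (by omega)] at this
        exact this)
      (by
        have := hx0 (3 * m) (by omega)
        rw [ev6 z C x hm hn', b0_true (by omega)] at this
        exact this)
    have hw : ∀ l < m, x (4 * m + l) = z i0 j0 l := by
      intro l hl
      have := hx0 (4 * m + l) (by omega)
      rw [ev8 z C x hn' hl, b0_false (by omega)] at this
      rw [Finset.sum_congr rfl fun i hi => Finset.sum_congr rfl fun j hj => by
        rw [show x (0 + i) = decide (i = i0) from hu i (mem_range.1 hi),
          show x (m + j) = decide (j = j0) from hv j (mem_range.1 hj)]] at this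
      rw [sum_onehot hi0 hj0 (fun i j => zb (z i j l)), add_eq_zero] at this
      exact zb_inj.1 this
    have ht : ∀ l < m, zb (x (5 * m + l)) = quaS m C l (z i0 j0) + zb (s i0 j0 l) := by
      intro l hl
      have := hx (5 * m + l) (by omega)
      rw [fv9 z C s x hn hl, b0_false (by omega), add_assoc, add_eq_zero] at this
      rw [this]
      congr 1
      · unfold quaS
        refine Finset.sum_congr rfl fun i hi => Finset.sum_congr rfl fun j hj => ?_
        rw [hw i (mem_range.1 hi), hw j (mem_range.1 hj)]
      · rw [Finset.sum_congr rfl fun i hi => Finset.sum_congr rfl fun j hj => by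
          rw [show x (0 + i) = decide (i = i0) from hu i (mem_range.1 hi),
            show x (m + j) = decide (j = j0) from hv j (mem_range.1 hj)]]
        exact sum_onehot hi0 hj0 (fun i j => zb (s i j l))
    have h6 := hx (6 * m) (by omega)
    rw [fv10 z C s x hm hn, b0_true (by omega)] at h6
    have : ∃ l ∈ range m, zb (x (6 * m + l)) * zb (x (5 * m + l)) ≠ 0 := by
      by_contra hc
      push Not at hc
      rw [Finset.sum_eq_zero hc] at h6
      exact absurd h6 (by decide)
    obtain ⟨l, hl, hne⟩ := this
    have hl' := mem_range.1 hl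
    refine ⟨i0, hi0, j0, hj0, l, hl', ?_⟩
    rw [← ht l hl']
    cases h : x (5 * m + l)
    · rw [h, zb_false, mul_zero] at hne
      exact absurd rfl hne
    · rfl
  · rintro ⟨i0, hi0, j0, hj0, l0, hl0, hc⟩
    refine ⟨sol2 m z C s i0 j0 l0, fun e he => ?_⟩
    set x := sol2 m z C s i0 j0 l0 with hx
    have x0 : ∀ v < m, x v = decide (v = i0) := fun v h => by
      rw [hx]; unfold sol2; rw [if_pos h]
    have x1 : ∀ v < m, x (m + v) = decide (v = j0) := fun v h => by
      rw [hx]; unfold sol2
      rw [if_neg (by omega), if_pos (by omega)]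
      congr 1
      simp
    have x2 : ∀ v < m, x (2 * m + v) = decide (i0 ≤ v) := fun v h => by
      rw [hx]; unfold sol2
      rw [if_neg (by omega), if_neg (by omega), if_pos (by omega)]
      congr 1
      simp
    have x3 : ∀ v < m, x (3 * m + v) = decide (j0 ≤ v) := fun v h => by
      rw [hx]; unfold sol2
      rw [if_neg (by omega), if_neg (by omega), if_neg (by omega), if_pos (by omega)]
      congr 1
      simp
    have x4 : ∀ v < m, x (4 * m + v) = z i0 j0 v := fun v h => by
      rw [hx]; unfold sol2
      rw [if_neg (by omega), if_neg (by omega), if_neg (by omega), if_neg (by omega), if_pos (by omega),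
        Nat.add_sub_cancel_left]
    have x5 : ∀ v < m, zb (x (5 * m + v)) = quaS m C v (z i0 j0) + zb (s i0 j0 v) := fun v h => by
      rw [hx]; unfold sol2
      rw [if_neg (by omega), if_neg (by omega), if_neg (by omega), if_neg (by omega), if_neg (by omega),
        if_pos (by omega), zb_ob, Nat.add_sub_cancel_left]
    have x6 : ∀ v < m, x (6 * m + v) = decide (v = l0) := fun v h => by
      rw [hx]; unfold sol2
      rw [if_neg (by omega), if_neg (by omega), if_neg (by omega), if_neg (by omega), if_neg (by omega),
        if_neg (by omega)]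
      congr 1
      simp
    have step : ∀ (k e : ℕ), zb (decide (k ≤ e + 1)) + zb (decide (k ≤ e)) + zb (decide (e + 1 = k)) = 0 := by
      intro k e
      rcases Nat.lt_trichotomy k (e + 1) with h | h | h
      · rw [decide_eq_true (by omega), decide_eq_true (by omega), decide_eq_false (by omega)]
        decide
      · rw [decide_eq_true (by omega), decide_eq_false (by omega), decide_eq_true (by omega)]
        decide
      · rw [decide_eq_false (by omega), decide_eq_false (by omega), decide_eq_false (by omega)]
        decide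
    have step0 : ∀ k : ℕ, zb (decide (k ≤ 0)) + zb (decide (0 = k)) = 0 := by
      intro k
      rcases Nat.eq_zero_or_pos k with h | h
      · rw [decide_eq_true (by omega), decide_eq_true (by omega)]
        decide
      · rw [decide_eq_false (by omega), decide_eq_false (by omega)]
        decide
    have stepm : ∀ k e : ℕ, zb (decide (e + 1 = k)) * zb (decide (k ≤ e)) = 0 := by
      intro k e
      by_cases h : e + 1 = k
      · rw [decide_eq_false (show ¬ k ≤ e by omega), zb_false, mul_zero]
      · rw [decide_eq_false h, zb_false, zero_mul]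
    rcases Nat.lt_or_ge e (5 * m) with h5 | h5
    · rw [A1_low z C s h5]
      rcases Nat.lt_or_ge e m with h1 | h1
      · rw [b0_false (by omega)]
        rcases Nat.eq_zero_or_pos e with rfl | h2
        · rw [ev0 z C x hm hn', x0 0 hm, show 2 * m = 2 * m + 0 from rfl, x2 0 hm]
          exact step0 i0
        · obtain ⟨e, rfl⟩ : ∃ e', e = e' + 1 := ⟨e - 1, by omega⟩
          rw [ev1 z C x hn' h1, x2 _ h1, x2 e (by omega), zero_add, x0 _ h1]
          exact step i0 e
      rcases Nat.lt_or_ge e (2 * m) with h2 | h2
      · rw [b0_false (by omega)]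
        obtain ⟨e, rfl⟩ : ∃ e', e = m + e' := ⟨e - m, by omega⟩
        rcases Nat.eq_zero_or_pos e with rfl | h3
        · rw [add_zero, ev2 z C x hm hn']
          have e1 := x1 0 hm
          have e2 := x3 0 hm
          rw [add_zero] at e1 e2
          rw [e1, e2]
          exact step0 j0
        · obtain ⟨e, rfl⟩ : ∃ e', e = e' + 1 := ⟨e - 1, by omega⟩
          rw [ev3 z C x hn' (by omega), x3 _ (by omega), x3 e (by omega), x1 _ (by omega)]
          exact step j0 e
      rcases Nat.lt_or_ge e (3 * m) with h3 | h3
      · obtain ⟨e, rfl⟩ : ∃ e', e = 2 * m + e' := ⟨e - 2 * m, by omega⟩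
        rcases Nat.eq_zero_or_pos e with rfl | h4
        · rw [add_zero, ev4 z C x hm hn', b0_true (by omega), x2 _ (by omega), decide_eq_true (by omega),
            zb_true]
        · obtain ⟨e, rfl⟩ : ∃ e', e = e' + 1 := ⟨e - 1, by omega⟩
          rw [ev5 z C x hn' (by omega), b0_false (by omega), zero_add, x0 _ (by omega), x2 e (by omega)]
          exact stepm i0 e
      rcases Nat.lt_or_ge e (4 * m) with h4 | h4
      · obtain ⟨e, rfl⟩ : ∃ e', e = 3 * m + e' := ⟨e - 3 * m, by omega⟩
        rcases Nat.eq_zero_or_pos e with rfl | h5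
        · rw [add_zero, ev6 z C x hm hn', b0_true (by omega), x3 _ (by omega), decide_eq_true (by omega),
            zb_true]
        · obtain ⟨e, rfl⟩ : ∃ e', e = e' + 1 := ⟨e - 1, by omega⟩
          rw [ev7 z C x hn' (by omega), b0_false (by omega), x1 _ (by omega), x3 e (by omega)]
          exact stepm j0 e
      obtain ⟨l, rfl⟩ : ∃ e', e = 4 * m + e' := ⟨e - 4 * m, by omega⟩
      rw [ev8 z C x hn' (by omega), b0_false (by omega), x4 _ (by omega)]
      rw [Finset.sum_congr rfl fun i hi => Finset.sum_congr rfl fun j hj => by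
        rw [zero_add, x0 i (mem_range.1 hi), x1 j (mem_range.1 hj)]]
      rw [sum_onehot hi0 hj0 (fun i j => zb (z i j l)), add_eq_zero]
    rcases Nat.lt_or_ge e (6 * m) with h6 | h6
    · obtain ⟨l, rfl⟩ : ∃ e', e = 5 * m + e' := ⟨e - 5 * m, by omega⟩
      rw [fv9 z C s x hn (by omega), b0_false (by omega), add_assoc, add_eq_zero, x5 _ (by omega)]
      congr 1
      · unfold quaS
        refine Finset.sum_congr rfl fun i hi => Finset.sum_congr rfl fun j hj => ?_
        rw [x4 i (mem_range.1 hi), x4 j (mem_range.1 hj)]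
      · rw [Finset.sum_congr rfl fun i hi => Finset.sum_congr rfl fun j hj => by
          rw [zero_add, x0 i (mem_range.1 hi), x1 j (mem_range.1 hj)]]
        exact (sum_onehot hi0 hj0 (fun i j => zb (s i j l))).symm
    rcases Nat.eq_or_lt_of_le h6 with h7 | h7
    · subst h7
      rw [fv10 z C s x hm hn, b0_true (by omega), Finset.sum_eq_single l0]
      · rw [x6 l0 hl0, x5 l0 hl0, hc, decide_eq_true rfl, zb_true, one_mul]
      · intro l hl hne
        rw [x6 l (mem_range.1 hl), decide_eq_false hne, zb_false, zero_mul]
      · intro h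
        exact absurd (mem_range.2 hl0) h
    · rw [fv11 z C s x h7, b0_false (by omega)]

end Pool.Agent.KMQ
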